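import Mathlib

/-!
# Triangular actions: dimensions of the generalized weight spaces
-/

set_option autoImplicit false

namespace Pool.Agent.K1H1.GT.Abs

variable {K V G : Type} [AddCommGroup V] [Module ℂ V] [Ring G] [Algebra ℂ G]

/-- An action that is triangular with respect to a basis and a strict order on its index set. -/
structure Tri (b : Module.Basis K ℂ V) (ρ : G →ₐ[ℂ] Module.End ℂ V) (R : K → K → Prop) : Prop where
  irr : ∀ k, ¬ R k k
  tr : ∀ a b c, R a b → R b c → R a c
  tri : ∀ x k q, b.repr (ρ x (b k)) q ≠ 0 → q = k ∨ R k q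

variable {b : Module.Basis K ℂ V} {ρ : G →ₐ[ℂ] Module.End ℂ V} {R : K → K → Prop}

lemma repr_sum (x : G) (v : V) (q : K) : b.repr (ρ x v) q =
    ∑ r ∈ (b.repr v).support, b.repr v r * b.repr (ρ x (b r)) q := by
  conv_lhs => rw [← b.linearCombination_repr v, Finsupp.linearCombination_apply, Finsupp.sum]
  rw [map_sum, map_sum, Finsupp.finsetSum_apply]
  refine Finset.sum_congr rfl fun r _ => ?_
  rw [map_smul, map_smul, Finsupp.smul_apply, smul_eq_mul]

lemma coord (h : Tri b ρ R) (x : G) {v : V} {k : K} (hv : ∀ q, b.repr v q ≠ 0 → ¬ R q k) :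
    b.repr (ρ x v) k = b.repr (ρ x (b k)) k * b.repr v k := by
  rw [repr_sum, mul_comm]
  by_cases hk : k ∈ (b.repr v).support
  · refine Finset.sum_eq_single_of_mem k hk fun r hr hne => ?_
    by_contra h0
    rcases h.tri x r k (right_ne_zero_of_mul h0) with h1 | h1
    · exact hne h1.symm
    · exact hv r (Finsupp.mem_support_iff.1 hr) h1
  · rw [Finsupp.notMem_support_iff.1 hk, zero_mul]
    refine Finset.sum_eq_zero fun r hr => ?_
    by_contra h0
    rcases h.tri x r k (right_ne_zero_of_mul h0) with h1 | h1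
    · rw [h1] at hk
      exact hk hr
    · exact hv r (Finsupp.mem_support_iff.1 hr) h1

lemma supp_tri (h : Tri b ρ R) (x : G) {v : V} {q : K} (hq : b.repr (ρ x v) q ≠ 0) :
    ∃ r, b.repr v r ≠ 0 ∧ (q = r ∨ R r q) := by
  rw [repr_sum] at hq
  obtain ⟨r, hr, h0⟩ := Finset.exists_ne_zero_of_sum_ne_zero hq
  exact ⟨r, Finsupp.mem_support_iff.1 hr, h.tri x r q (right_ne_zero_of_mul h0)⟩

/-- the diagonal characters -/
noncomputable def ch (h : Tri b ρ R) (k : K) : G →ₐ[ℂ] ℂ where
  toFun x := b.repr (ρ x (b k)) k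
  map_one' := by simp
  map_mul' := by
    intro x y
    rw [map_mul, Module.End.mul_apply, coord h x]
    intro q hq hR
    rcases h.tri y k q hq with h1 | h1
    · rw [h1] at hR
      exact h.irr k hR
    · exact h.irr k (h.tr _ _ _ h1 hR)
  map_zero' := by simp
  map_add' := by intro x y; simp
  commutes' := by
    intro r
    rw [AlgHom.commutes, Module.algebraMap_end_apply, map_smul, Module.Basis.repr_self,
      Finsupp.smul_apply, Finsupp.single_eq_same]
    simp

lemma ch_apply (h : Tri b ρ R) (k : K) (x : G) : ch h k x = b.repr (ρ x (b k)) k := rfl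

lemma exists_min (h : Tri b ρ R) (s : Finset K) (hs : s.Nonempty) : ∃ k ∈ s, ∀ q ∈ s, ¬ R q k := by
  classical
  obtain ⟨k, hk, hmin⟩ := Finset.exists_min_image s (fun k => (s.filter fun q => R q k).card) hs
  refine ⟨k, hk, fun q hq hR => ?_⟩
  have h1 : (s.filter fun r => R r q) ⊂ (s.filter fun r => R r k) := by
    rw [Finset.ssubset_iff_of_subset]
    · refine ⟨q, Finset.mem_filter.2 ⟨hq, hR⟩, fun hq' => ?_⟩
      exact h.irr q (Finset.mem_filter.1 hq').2
    · intro r hr
      rw [Finset.mem_filter] at hr ⊢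
      exact ⟨hr.1, h.tr _ _ _ hr.2 hR⟩
  exact absurd (hmin q hq) (not_le.2 (Finset.card_lt_card h1))

lemma exists_min_supp (h : Tri b ρ R) {v : V} (hv : v ≠ 0) :
    ∃ k, b.repr v k ≠ 0 ∧ ∀ q, b.repr v q ≠ 0 → ¬ R q k := by
  have hs : (b.repr v).support.Nonempty := by
    rw [Finsupp.support_nonempty_iff]
    intro h0
    exact hv (by rwa [LinearEquiv.map_eq_zero_iff] at h0)
  obtain ⟨k, hk, hmin⟩ := exists_min h _ hs
  exact ⟨k, Finsupp.mem_support_iff.1 hk, fun q hq => hmin q (Finsupp.mem_support_iff.2 hq)⟩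

/-- Upper bound: a vector killed by a power of the ideal has a minimal index whose character
vanishes on the ideal. -/
lemma min_char (h : Tri b ρ R) (m : Ideal G) {v : V} (hv : v ≠ 0)
    (hm : ∃ j : ℕ, ∀ x ∈ m ^ j, ρ x v = 0) : ∃ k, b.repr v k ≠ 0 ∧ ∀ x ∈ m, ch h k x = 0 := by
  obtain ⟨k, hk, hmin⟩ := exists_min_supp h hv
  refine ⟨k, hk, fun x hx => ?_⟩
  obtain ⟨j, hj⟩ := hm
  have h1 := coord h (x ^ j) hmin
  rw [hj _ (Ideal.pow_mem_pow hx j), map_zero, Finsupp.zero_apply, ← ch_apply h, map_pow] at h1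
  exact eq_zero_of_pow_eq_zero ((mul_eq_zero.1 h1.symm).resolve_right hk)

theorem rank_le (h : Tri b ρ R) (m : Ideal G) (W : Submodule ℂ V)
    (hW : ∀ v ∈ W, ∃ j : ℕ, ∀ x ∈ m ^ j, ρ x v = 0) (N : ℕ) (S : Finset K) (hS : S.card ≤ N)
    (hmem : ∀ k, (∀ x ∈ m, ch h k x = 0) → k ∈ S) : Module.rank ℂ W ≤ N := by
  let L : W →ₗ[ℂ] (S → ℂ) :=
    { toFun := fun v k => b.repr v.1 k.1
      map_add' := by intro v w; ext k; simp
      map_smul' := by intro c v; ext k; simp }
  have hL : Function.Injective L := by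
    rw [← LinearMap.ker_eq_bot, LinearMap.ker_eq_bot']
    intro v hv
    by_contra hne
    have hne' : v.1 ≠ 0 := fun h0 => hne (Subtype.ext h0)
    obtain ⟨k, hk, hch⟩ := min_char h m hne' (hW v.1 v.2)
    have h1 := congrFun hv ⟨k, hmem k hch⟩
    exact hk h1
  have h2 := LinearMap.rank_le_of_injective L hL
  rw [rank_fun', Fintype.card_coe] at h2
  exact h2.trans (by exact_mod_cast hS)

/-- Main step of the lower bound. -/
lemma kill_all (h : Tri b ρ R) (hc : ∀ x y : G, x * y = y * x) (χ : G →ₐ[ℂ] ℂ) (S : Finset K) :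
    (∀ q ∈ S, ∀ r, R q r → r ∈ S) → ∃ T : G, χ T ≠ 0 ∧ ∃ N : ℕ,
      ∀ x ∈ (RingHom.ker χ) ^ N, ∀ v : V, (∀ q, b.repr v q ≠ 0 → q ∈ S) → ρ x (ρ T v) = 0 := by
  classical
  induction S using Finset.strongInduction with
  | H S ih =>
    intro hup
    rcases S.eq_empty_or_nonempty with hS | hS
    · subst hS
      refine ⟨1, by simp, 0, fun x _ v hv => ?_⟩
      have : v = 0 := by
        by_contra hne
        obtain ⟨k, hk, _⟩ := exists_min_supp h hne
        exact absurd (hv k hk) (Finset.notMem_empty k)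
      rw [this, map_zero, map_zero]
    · obtain ⟨k, hk, hmin⟩ := exists_min h S hS
      have hup' : ∀ q ∈ S.erase k, ∀ r, R q r → r ∈ S.erase k := by
        intro q hq r hR
        rw [Finset.mem_erase] at hq ⊢
        refine ⟨?_, hup q hq.2 r hR⟩
        rintro rfl
        exact hmin q hq.2 hR
      obtain ⟨T, hT, N, hN⟩ := ih (S.erase k) (Finset.erase_ssubset hk) hup'
      -- an element with vanishing character at `k` maps to the smaller space
      have hred : ∀ y : G, ch h k y = 0 → ∀ v : V, (∀ q, b.repr v q ≠ 0 → q ∈ S) →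
          ∀ q, b.repr (ρ y v) q ≠ 0 → q ∈ S.erase k := by
        intro y hy v hv q hq
        rw [Finset.mem_erase]
        refine ⟨?_, ?_⟩
        · rintro rfl
          apply hq
          rw [coord h y fun r hr => hmin r (hv r hr), ← ch_apply h, hy, zero_mul]
        · obtain ⟨r, hr, h1 | h1⟩ := supp_tri h y hq
          · rw [h1]
            exact hv r hr
          · exact hup r (hv r hr) q h1
      by_cases hχ : ch h k = χ
      · refine ⟨T, hT, N + 1, fun x hx v hv => ?_⟩
        rw [Submodule.pow_succ] at hx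
        refine Submodule.mul_induction_on hx ?_ ?_
        · intro x' hx' y hy
          have h1 : x' * y * T = x' * T * y := by rw [mul_assoc, hc y T, mul_assoc]
          rw [← Module.End.mul_apply, ← map_mul, h1, map_mul, map_mul, Module.End.mul_apply,
            Module.End.mul_apply]
          refine hN x' hx' _ (hred y ?_ v hv)
          rw [hχ]
          exact hy
        · intro x y hx hy
          rw [map_add, LinearMap.add_apply, hx, hy, add_zero]
      · obtain ⟨z, hz⟩ : ∃ z, ch h k z ≠ χ z := by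
          by_contra hcon
          push Not at hcon
          exact hχ (AlgHom.ext hcon)
        refine ⟨T * (z - algebraMap ℂ G (ch h k z)), ?_, N, fun x hx v hv => ?_⟩
        · rw [map_mul, map_sub, AlgHom.commutes]
          exact mul_ne_zero hT (sub_ne_zero.2 (Ne.symm hz))
        · rw [map_mul, Module.End.mul_apply]
          refine hN x hx _ (hred _ ?_ v hv)
          rw [map_sub, AlgHom.commutes]
          exact sub_self _

theorem le_rank (h : Tri b ρ R) (hc : ∀ x y : G, x * y = y * x) (χ : G →ₐ[ℂ] ℂ) (S : Finset K)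
    (hup : ∀ q ∈ S, ∀ r, R q r → r ∈ S) (F : Finset K) (hFS : F ⊆ S) (hF : ∀ k ∈ F, ch h k = χ)
    (W : Submodule ℂ V) (hW : ∀ v, (∃ j : ℕ, ∀ x ∈ (RingHom.ker χ) ^ j, ρ x v = 0) → v ∈ W) :
    (F.card : Cardinal) ≤ Module.rank ℂ W := by
  classical
  obtain ⟨T, hT, N, hN⟩ := kill_all h hc χ S hup
  let c : (F → ℂ) →ₗ[ℂ] V := Fintype.linearCombination ℂ fun k : F => b k.1
  have hcr : ∀ (f : F → ℂ) (q : K), b.repr (c f) q = if hq : q ∈ F then f ⟨q, hq⟩ else 0 := by
    intro f q
    change b.repr (Fintype.linearCombination ℂ (fun k : F => b k.1) f) q = _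
    rw [Fintype.linearCombination_apply, map_sum, Finsupp.finsetSum_apply]
    have h1 : ∀ k : F, b.repr (f k • b k.1) q = if k.1 = q then f k else 0 := by
      intro k
      rw [map_smul, Module.Basis.repr_self, Finsupp.smul_apply, Finsupp.single_apply]
      split_ifs
      · rw [smul_eq_mul, mul_one]
      · rw [smul_zero]
    rw [Finset.sum_congr rfl fun k _ => h1 k]
    split_ifs with hq
    · rw [Finset.sum_eq_single_of_mem ⟨q, hq⟩ (Finset.mem_univ _)]
      · rw [if_pos rfl]
      · intro k _ hne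
        rw [if_neg]
        intro h2
        exact hne (Subtype.ext h2)
    · refine Finset.sum_eq_zero fun k _ => ?_
      rw [if_neg]
      rintro rfl
      exact hq k.2
  have hsupp : ∀ (f : F → ℂ) (q : K), b.repr (c f) q ≠ 0 → q ∈ F := by
    intro f q hq
    by_contra hq'
    rw [hcr, dif_neg hq'] at hq
    exact hq rfl
  have hmem : ∀ f : F → ℂ, ρ T (c f) ∈ W := by
    intro f
    exact hW _ ⟨N, fun x hx => hN x hx _ fun q hq => hFS (hsupp f q hq)⟩
  let L : (F → ℂ) →ₗ[ℂ] W := LinearMap.codRestrict W (ρ T ∘ₗ c) hmem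
  have hL : Function.Injective L := by
    rw [← LinearMap.ker_eq_bot, LinearMap.ker_eq_bot']
    intro f hf
    have hf' : ρ T (c f) = 0 := congrArg Subtype.val hf
    have hcf : c f = 0 := by
      by_contra hne
      obtain ⟨k, hk, hmin⟩ := exists_min_supp h hne
      have h1 := coord h T hmin
      rw [hf', map_zero, Finsupp.zero_apply, ← ch_apply h, hF k (hsupp f k hk)] at h1
      exact mul_ne_zero hT hk h1.symm
    funext q
    have h1 := hcr f q.1
    rw [hcf, map_zero, Finsupp.zero_apply, dif_pos q.2] at h1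
    exact h1.symm
  have h2 := LinearMap.rank_le_of_injective L hL
  rw [rank_fun', Fintype.card_coe] at h2
  exact h2

end Pool.Agent.K1H1.GT.Abs
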