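import Pool.Agent.K1H1.GT.VermaBasis

/-!
# The action on the basis of a Verma module
-/

set_option autoImplicit false
set_option linter.unusedSectionVars false

namespace Pool.Agent.K1H1.GT

open H67OL H67OL.DOMaux

attribute [local instance 100] LieRing.ofAssociativeRing

variable {n : ℕ}

/-- row of an index -/
def rw' (p : NP n) : ℕ := (p.1.1 : ℕ)

/-- column of an index -/
def cl (p : NP n) : ℕ := (p.1.2 : ℕ)

lemma cl_lt (p : NP n) : cl p < rw' p := p.2

/-- the contribution of one generator to the statistic `σ_m` -/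
def fs (m : ℕ) (p : NP n) : ℕ := if m ≤ rw' p ∧ cl p < m then cl p else 0

/-- the statistic `σ_m` -/
noncomputable def sg (m : ℕ) : KK n →ₗ[ℕ] ℕ := Finsupp.linearCombination ℕ (fs m)

lemma sg_single (m : ℕ) (p : NP n) : sg m (Finsupp.single p 1) = fs m p := by
  rw [sg, Finsupp.linearCombination_single, one_smul]

lemma sg_cons (m : ℕ) (p : NP n) (w : List (NP n)) :
    sg m (cnt (p :: w)) = fs m p + sg m (cnt w) := by
  rw [cnt_cons, map_add, sg_single]

/-- all rows are at least `m` -/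
def up (m : ℕ) (k : KK n) : Prop := ∀ p, k p ≠ 0 → m ≤ rw' p

/-- all rows are less than `m` -/
def lo (m : ℕ) (k : KK n) : Prop := ∀ p, k p ≠ 0 → rw' p < m

/-- weak comparison -/
def wle (m : ℕ) (k q : KK n) : Prop := ∀ m', m ≤ m' → sg m' k ≤ sg m' q

/-- strict comparison -/
def slt (m : ℕ) (k q : KK n) : Prop := wle m k q ∧ sg m k < sg m q

lemma wle_refl (m : ℕ) (k : KK n) : wle m k k := fun _ _ => le_rfl

lemma wle.trans {m : ℕ} {k q r : KK n} (h1 : wle m k q) (h2 : wle m q r) : wle m k r :=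
  fun m' h => (h1 m' h).trans (h2 m' h)

lemma slt.trans_wle {m : ℕ} {k q r : KK n} (h1 : slt m k q) (h2 : wle m q r) : slt m k r :=
  ⟨h1.1.trans h2, lt_of_lt_of_le h1.2 (h2 m le_rfl)⟩

lemma wle.trans_slt {m : ℕ} {k q r : KK n} (h1 : wle m k q) (h2 : slt m q r) : slt m k r :=
  ⟨h1.trans h2.1, lt_of_le_of_lt (h1 m le_rfl) h2.2⟩

/-- span of the basis vectors with a property -/
noncomputable def bsp (l : Fin n → ℂ) (P : KK n → Prop) : Submodule ℂ (Verma l) :=
  Submodule.span ℂ (bv l '' {q | P q})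

lemma bv_mem {l : Fin n → ℂ} {P : KK n → Prop} {q : KK n} (h : P q) : bv l q ∈ bsp l P :=
  Submodule.subset_span ⟨q, h, rfl⟩

lemma bsp_mono {l : Fin n → ℂ} {P Q : KK n → Prop} (h : ∀ q, P q → Q q) : bsp l P ≤ bsp l Q :=
  Submodule.span_mono (Set.image_mono fun q hq => h q hq)

/-- if `x` maps the generators of a span to a submodule, then it maps the span to it -/
lemma smul_span {l : Fin n → ℂ} {S : Set (Verma l)} {x : U n} {W : Submodule ℂ (Verma l)}
    (h : ∀ v ∈ S, x • v ∈ W) {v : Verma l} (hv : v ∈ Submodule.span ℂ S) : x • v ∈ W := by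
  induction hv using Submodule.span_induction with
  | mem v hv => exact h v hv
  | zero => rw [smul_zero]; exact W.zero_mem
  | add a b _ _ ha hb => rw [smul_add]; exact W.add_mem ha hb
  | smul c a _ ha => rw [smul_comm]; exact W.smul_mem c ha

lemma span_smul {l : Fin n → ℂ} {S : Set (U n)} {v : Verma l} {W : Submodule ℂ (Verma l)}
    (h : ∀ x ∈ S, x • v ∈ W) {x : U n} (hx : x ∈ Submodule.span ℂ S) : x • v ∈ W := by
  induction hx using Submodule.span_induction with
  | mem x hx => exact h x hx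
  | zero => rw [zero_smul]; exact W.zero_mem
  | add a b _ _ ha hb => rw [add_smul]; exact W.add_mem ha hb
  | smul c a _ ha => rw [smul_assoc]; exact W.smul_mem c ha

/-- if `x` maps the basis vectors of a span to a submodule, then it maps the span to it -/
lemma smul_bsp {l : Fin n → ℂ} {P : KK n → Prop} {x : U n} {W : Submodule ℂ (Verma l)}
    (h : ∀ q, P q → x • bv l q ∈ W) {v : Verma l} (hv : v ∈ bsp l P) : x • v ∈ W := by
  refine smul_span ?_ hv
  rintro _ ⟨q, hq, rfl⟩
  exact h q hq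

lemma E_y_comm {i j : Fin n} (p : NP n) (hj : (j : ℕ) < rw' p) :
    (E i j * y p : U n) = y p * E i j - (if h : (p.1.2 : Fin n) = i ∧ j < p.1.1 then
      y ⟨(p.1.1, j), h.2⟩ else 0) := by
  have h1 := E_comm i j p.1.1 p.1.2
  have h2 : j ≠ p.1.1 := fun h => (lt_irrefl (j : ℕ)) (lt_of_lt_of_eq hj (by rw [h]; rfl))
  rw [if_neg h2, zero_sub, sub_eq_iff_eq_add] at h1
  change E i j * E p.1.1 p.1.2 = E p.1.1 p.1.2 * E i j - _
  rw [h1]
  by_cases h : (p.1.2 : Fin n) = i
  · have h3 : (p.1.2 : Fin n) = i ∧ j < p.1.1 := ⟨h, hj⟩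
    rw [if_pos h, dif_pos h3, neg_add_eq_sub]
    rfl
  · rw [if_neg h, dif_neg (fun h' => h h'.1), neg_zero, zero_add, sub_zero]

/-- rows of a list -/
def rows (w : List (NP n)) : List ℕ := w.map rw'

lemma rows_cons (p : NP n) (w : List (NP n)) : rows (p :: w) = rw' p :: rows w := rfl

lemma F2_list (l : Fin n → ℂ) (m : ℕ) {i j : Fin n} (hij : i < j) (hj : (j : ℕ) < m) :
    ∀ w : List (NP n), (∀ p ∈ w, m ≤ rw' p) →
    E i j • ((w.map y).prod • vv l) ∈ Submodule.span ℂ {x | ∃ w' : List (NP n),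
      rows w' = rows w ∧ slt m (cnt w) (cnt w') ∧ x = (w'.map y).prod • vv l} := by
  intro w
  induction w with
  | nil =>
    intro _
    rw [List.map_nil, List.prod_nil, one_smul, E_vv l hij]
    exact Submodule.zero_mem _
  | cons p w ih =>
    intro hw
    have hp : m ≤ rw' p := hw p (List.mem_cons_self ..)
    have ih' := ih fun q hq => hw q (List.mem_cons_of_mem _ hq)
    rw [List.map_cons, List.prod_cons, smul_smul, ← mul_assoc, E_y_comm p (lt_of_lt_of_le hj hp),
      sub_mul, sub_smul, mul_assoc, mul_smul, mul_smul]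
    refine Submodule.sub_mem _ ?_ ?_
    · -- the first term
      refine smul_span ?_ ih'
      rintro _ ⟨w', h1, h2, rfl⟩
      refine Submodule.subset_span ⟨p :: w', ?_, ⟨?_, ?_⟩, ?_⟩
      · rw [rows_cons, rows_cons, h1]
      · intro m' hm'
        rw [sg_cons, sg_cons]
        exact Nat.add_le_add_left (h2.1 m' hm') _
      · rw [sg_cons, sg_cons]
        exact Nat.add_lt_add_left h2.2 _
      · rw [List.map_cons, List.prod_cons, mul_smul]
    · split_ifs with h
      · refine Submodule.subset_span ⟨⟨(p.1.1, j), h.2⟩ :: w, ?_, ⟨?_, ?_⟩, ?_⟩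
        · rfl
        · intro m' hm'
          rw [sg_cons, sg_cons]
          refine Nat.add_le_add_right ?_ _
          unfold fs rw' cl
          have h1 : ((p.1.2 : Fin n) : ℕ) = (i : ℕ) := congrArg Fin.val h.1
          have h2 : (i : ℕ) < (j : ℕ) := hij
          dsimp only
          rw [h1]
          split_ifs with h3 h4 <;> omega
        · rw [sg_cons, sg_cons]
          refine Nat.add_lt_add_right ?_ _
          unfold fs rw' cl
          unfold rw' at hp
          have h1 : ((p.1.2 : Fin n) : ℕ) = (i : ℕ) := congrArg Fin.val h.1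
          have h2 : (i : ℕ) < (j : ℕ) := hij
          dsimp only
          rw [h1]
          split_ifs with h3 h4 <;> omega
        · rw [List.map_cons, List.prod_cons]
      · rw [zero_mul, zero_smul]
        exact Submodule.zero_mem _

lemma y_comm {p q : NP n} (h : rw' p = rw' q) : (y p * y q : U n) = y q * y p := by
  have h1 := E_comm p.1.1 p.1.2 q.1.1 q.1.2
  have h2 : (p.1.2 : Fin n) ≠ q.1.1 := by
    intro h'
    have := p.2
    rw [h'] at this
    exact absurd (show ((q.1.1 : Fin n) : ℕ) < p.1.1 from this) (by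
      change ¬ (rw' q < rw' p)
      omega)
  have h3 : (q.1.2 : Fin n) ≠ p.1.1 := by
    intro h'
    have := q.2
    rw [h'] at this
    exact absurd (show ((p.1.1 : Fin n) : ℕ) < q.1.1 from this) (by
      change ¬ (rw' p < rw' q)
      omega)
  rw [if_neg h2, if_neg h3, sub_zero, sub_eq_zero] at h1
  exact h1

/-- Row-sorted lists give basis vectors. -/
lemma row_sorted (l : Fin n → ℂ) {w : List (NP n)} (hw : (rows w).Pairwise (· ≤ ·)) :
    (w.map y).prod • vv l = bv l (cnt w) := by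
  rw [bv, ← sort_prod]
  unfold rows at hw
  rw [List.pairwise_map] at hw
  refine hw.imp ?_
  intro a b hab hlt
  apply y_comm
  rw [NP_lt_iff] at hlt
  rcases hlt with h | h
  · exact absurd (show rw' b < rw' a from h) (not_lt.2 hab)
  · exact congrArg Fin.val h.1.symm

lemma rows_lst_sorted (k : KK n) : (rows (lst k)).Pairwise (· ≤ ·) := by
  unfold rows
  rw [List.pairwise_map]
  refine (lst_sorted k).imp ?_
  intro a b hab
  rcases eq_or_lt_of_le hab with h | h
  · rw [h]
  · rw [NP_lt_iff] at h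
    rcases h with h | h
    · exact le_of_lt (show rw' a < rw' b from h)
    · exact le_of_eq (congrArg Fin.val h.1)

lemma up_of_rows {m : ℕ} {w w' : List (NP n)} (h : rows w' = rows w) (hw : ∀ p ∈ w, m ≤ rw' p) :
    up m (cnt w') := by
  intro p hp
  rw [cnt_ne_zero] at hp
  have h1 : rw' p ∈ rows w' := List.mem_map_of_mem hp
  rw [h] at h1
  obtain ⟨q, hq, h2⟩ := List.mem_map.1 h1
  rw [← h2]
  exact hw q hq

lemma F2 (l : Fin n → ℂ) {m : ℕ} {i j : Fin n} (hij : i < j) (hj : (j : ℕ) < m) {k : KK n}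
    (hk : up m k) : E i j • bv l k ∈ bsp l fun q => up m q ∧ slt m k q := by
  have h1 := F2_list l m hij hj (lst k) fun p hp => hk p (mem_lst.1 hp)
  refine Submodule.span_le.2 ?_ h1
  rintro _ ⟨w', h2, h3, rfl⟩
  rw [row_sorted l (by rw [h2]; exact rows_lst_sorted k)]
  rw [cnt_lst] at h3
  exact bv_mem ⟨up_of_rows h2 fun p hp => hk p (mem_lst.1 hp), h3⟩

/-! ### weights -/

/-- the weight of a generator -/
noncomputable def ws (i : Fin n) (p : NP n) : ℂ :=
  (if rw' p = (i : ℕ) then (1 : ℂ) else 0) - (if cl p = (i : ℕ) then (1 : ℂ) else 0)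

/-- the weight of a basis vector -/
noncomputable def wt (l : Fin n → ℂ) (k : KK n) (i : Fin n) : ℂ :=
  l i + Finsupp.linearCombination ℕ (ws i) k

lemma wt_cons (l : Fin n → ℂ) (p : NP n) (w : List (NP n)) (i : Fin n) :
    wt l (cnt (p :: w)) i = ws i p + wt l (cnt w) i := by
  rw [wt, wt, cnt_cons, map_add, Finsupp.linearCombination_single, one_smul]
  ring

lemma E_diag_y (i : Fin n) (p : NP n) : (E i i * y p : U n) = y p * E i i + ws i p • y p := by
  have h2 := E_comm i i p.1.1 p.1.2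
  rw [sub_eq_iff_eq_add] at h2
  change E i i * E p.1.1 p.1.2 = E p.1.1 p.1.2 * E i i + _ • E p.1.1 p.1.2
  rw [h2, add_comm]
  congr 1
  rw [ws, sub_smul]
  congr 1
  · by_cases h : i = p.1.1
    · have h' : rw' p = (i : ℕ) := congrArg Fin.val h.symm
      rw [if_pos h, if_pos h', one_smul, h]
    · have h' : ¬ rw' p = (i : ℕ) := fun h' => h (Fin.ext h'.symm)
      rw [if_neg h, if_neg h', zero_smul]
  · by_cases h : (p.1.2 : Fin n) = i
    · have h' : cl p = (i : ℕ) := congrArg Fin.val h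
      rw [if_pos h, if_pos h', one_smul, h]
    · have h' : ¬ cl p = (i : ℕ) := fun h' => h (Fin.ext h')
      rw [if_neg h, if_neg h', zero_smul]

lemma diag_list (l : Fin n → ℂ) (i : Fin n) (w : List (NP n)) :
    E i i • ((w.map y).prod • vv l) = wt l (cnt w) i • ((w.map y).prod • vv l) := by
  induction w with
  | nil =>
    rw [List.map_nil, List.prod_nil, one_smul, E_diag_vv, cnt_nil, wt, map_zero, add_zero]
  | cons p w ih =>
    rw [List.map_cons, List.prod_cons, smul_smul, ← mul_assoc, E_diag_y, add_mul, add_smul,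
      mul_assoc, mul_smul (y p), mul_smul (E i i), ih, wt_cons, smul_mul_assoc, smul_assoc,
      smul_comm (y p), ← mul_smul (y p), ← add_smul, add_comm]

lemma E_diag_bv (l : Fin n → ℂ) (i : Fin n) (k : KK n) :
    E i i • bv l k = wt l k i • bv l k := by
  rw [bv, diag_list, cnt_lst]

/-! ### the action of `U(gl(m))` -/

/-- indices in `gl(m)` -/
def Cm (n m : ℕ) : Set (Ix n) := {p | (p.1 : ℕ) < m ∧ (p.2 : ℕ) < m}

lemma Usub_eq (n m : ℕ) : Usub n m = Algebra.adjoin ℂ (g '' Cm n m) := by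
  unfold Usub
  congr 1
  ext x
  constructor
  · rintro ⟨i, j, hi, hj, rfl⟩
    exact ⟨(i, j), ⟨hi, hj⟩, rfl⟩
  · rintro ⟨p, hp, rfl⟩
    exact ⟨p.1, p.2, hp.1, hp.2, rfl⟩

lemma E_mem_Usub {m : ℕ} {i j : Fin n} (hi : (i : ℕ) < m) (hj : (j : ℕ) < m) : E i j ∈ Usub n m :=
  Algebra.subset_adjoin ⟨i, j, hi, hj, rfl⟩

lemma g_mem_Usub {m : ℕ} {p : Ix n} (hp : p ∈ Cm n m) : g p ∈ Usub n m :=
  E_mem_Usub hp.1 hp.2

lemma Usub_mono {m m' : ℕ} (h : m ≤ m') : Usub n m ≤ Usub n m' := by
  unfold Usub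
  apply Algebra.adjoin_mono
  rintro x ⟨i, j, hi, hj, rfl⟩
  exact ⟨i, j, by omega, by omega, rfl⟩

lemma Usub_span {m : ℕ} {x : U n} (hx : x ∈ Usub n m) : x ∈ Submodule.span ℂ
    {z | ∃ s : Ix n →₀ ℕ, (∀ i, s i ≠ 0 → i ∈ Cm n m) ∧ z = ((lst s).map g).prod} := by
  rw [Usub_eq] at hx
  refine adjoin_span g (Cm n m) ?_ hx
  intro p hp q hq
  change E p.1 p.2 * E q.1 q.2 - E q.1 q.2 * E p.1 p.2 ∈ _
  rw [E_comm]
  refine Submodule.sub_mem _ ?_ ?_
  · split_ifs
    · exact Submodule.subset_span ⟨(p.1, q.2), ⟨hp.1, hq.2⟩, rfl⟩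
    · exact Submodule.zero_mem _
  · split_ifs
    · exact Submodule.subset_span ⟨(q.1, p.2), ⟨hq.1, hp.2⟩, rfl⟩
    · exact Submodule.zero_mem _

/-- products of diagonal and upper triangular elements of `gl(m)` -/
lemma nonneg_list (l : Fin n → ℂ) {m : ℕ} {k : KK n} (hk : up m k) (w : List (Ix n))
    (hw : ∀ p ∈ w, p ∈ Cm n m ∧ p ∈ nonneg n) :
    (w.map g).prod • bv l k ∈ bsp l fun q => up m q ∧ wle m k q := by
  induction w with
  | nil =>
    rw [List.map_nil, List.prod_nil, one_smul]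
    exact bv_mem ⟨hk, wle_refl m k⟩
  | cons p w ih =>
    have ih' := ih fun q hq => hw q (List.mem_cons_of_mem _ hq)
    have hp := hw p (List.mem_cons_self ..)
    rw [List.map_cons, List.prod_cons, mul_smul]
    refine smul_bsp ?_ ih'
    rintro q ⟨hq1, hq2⟩
    rcases eq_or_lt_of_le (not_lt.1 hp.2) with h | h
    · have : (g p : U n) = E p.1 p.1 := by
        change E p.1 p.2 = _
        rw [← h]
      rw [this, E_diag_bv]
      exact Submodule.smul_mem _ _ (bv_mem ⟨hq1, hq2⟩)
    · have := F2 l h hp.1.2 hq1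
      exact bsp_mono (fun r hr => ⟨hr.1, hq2.trans hr.2.1⟩) this

/-- the exponent of the lower triangular part -/
noncomputable def low (s : Ix n →₀ ℕ) : KK n := cnt ((lst (sn s)).attach.map
    fun p => (⟨p.1, sn_ne (mem_lst.1 p.2)⟩ : NP n))

lemma lst_low (s : Ix n →₀ ℕ) : lst (low s) = ((lst (sn s)).attach.map
    fun p => (⟨p.1, sn_ne (mem_lst.1 p.2)⟩ : NP n)) := by
  apply lst_cnt
  rw [List.pairwise_map]
  have h2 : ((lst (sn s)).attach.map Subtype.val).Pairwise (· ≤ ·) := by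
    rw [List.attach_map_subtype_val]
    exact lst_sorted _
  rw [List.pairwise_map] at h2
  exact h2

lemma low_prod (s : Ix n →₀ ℕ) : ((lst (sn s)).map g).prod = ((lst (low s)).map y).prod := by
  rw [lst_low, List.map_map]
  congr 1
  conv_lhs => rw [← List.attach_map_subtype_val (lst (sn s)), List.map_map]
  rfl

lemma low_lo {m : ℕ} {s : Ix n →₀ ℕ} (hs : ∀ i, s i ≠ 0 → i ∈ Cm n m) : lo m (low s) := by
  intro p hp
  rw [← mem_lst, lst_low] at hp
  obtain ⟨q, _, rfl⟩ := List.mem_map.1 hp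
  have h1 : sn s q.1 ≠ 0 := mem_lst.1 q.2
  have h2 : s q.1 ≠ 0 := by
    rw [sn_apply_neg s (sn_ne h1)] at h1
    exact h1
  exact (hs q.1 h2).1

lemma lo_up_add {m : ℕ} {k q : KK n} (hk : lo m k) (hq : up m q) : lst (k + q) = lst k ++ lst q := by
  apply lst_add
  intro i j hi hj
  refine le_of_lt ((NP_lt_iff i j).2 (Or.inl ?_))
  have h : rw' i < rw' j := lt_of_lt_of_le (hk i hi) (hq j hj)
  exact h

lemma bv_add (l : Fin n → ℂ) {m : ℕ} {k q : KK n} (hk : lo m k) (hq : up m q) :
    bv l (k + q) = ((lst k).map y).prod • bv l q := by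
  rw [bv, bv, lo_up_add hk hq, List.map_append, List.prod_append, mul_smul]

lemma sorted_split (s : Ix n →₀ ℕ) : ((lst s).map g).prod =
    ((lst (low s)).map y).prod * ((lst (sp s)).map (g (n := n))).prod := by
  rw [← low_prod, ← List.prod_append, ← List.map_append, ← lst_add, sn_add_sp]
  intro i j hi hj
  exact (lt_of_neg (sn_ne hi) (sp_ne hj)).le

lemma C1 (l : Fin n → ℂ) {m : ℕ} {k : KK n} (hk : up m k) {x : U n} (hx : x ∈ Usub n m) :
    x • bv l k ∈ bsp l (wle m k) := by
  refine span_smul ?_ (Usub_span hx)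
  rintro _ ⟨s, hs, rfl⟩
  rw [sorted_split, mul_smul]
  have h1 := nonneg_list l hk (lst (sp s)) (fun p hp => by
    have hp' := mem_lst.1 hp
    refine ⟨hs p ?_, sp_ne hp'⟩
    rw [sp_apply_nonneg s (sp_ne hp')] at hp'
    exact hp')
  refine smul_bsp ?_ h1
  rintro q ⟨hq1, hq2⟩
  rw [← bv_add l (low_lo hs) hq1]
  refine bv_mem ?_
  intro m' hm'
  rw [map_add]
  exact (hq2 m' hm').trans (Nat.le_add_left _ _)

/-- The left ideal generated by the upper triangular elements of `gl(m)`. -/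
noncomputable def NN (n m : ℕ) : Submodule ℂ (U n) := Submodule.span ℂ
  {x | ∃ u ∈ Usub n m, ∃ i j : Fin n, i < j ∧ (j : ℕ) < m ∧ x = u * E i j}

lemma C2 (l : Fin n → ℂ) {m : ℕ} {k : KK n} (hk : up m k) {x : U n} (hx : x ∈ NN n m) :
    x • bv l k ∈ bsp l (slt m k) := by
  refine span_smul ?_ hx
  rintro _ ⟨u, hu, i, j, hij, hj, rfl⟩
  rw [mul_smul]
  refine smul_bsp ?_ (F2 l hij hj hk)
  rintro q ⟨hq1, hq2⟩
  exact bsp_mono (fun r hr => hq2.trans_wle hr) (C1 l hq1 hu)

lemma NN_mul {m : ℕ} {u x : U n} (hu : u ∈ Usub n m) (hx : x ∈ NN n m) : u * x ∈ NN n m := by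
  unfold NN at hx
  induction hx using Submodule.span_induction with
  | mem x hx =>
    obtain ⟨u', hu', i, j, hij, hj, rfl⟩ := hx
    exact Submodule.subset_span ⟨u * u', Subalgebra.mul_mem _ hu hu', i, j, hij, hj,
      (mul_assoc _ _ _).symm⟩
  | zero => rw [mul_zero]; exact Submodule.zero_mem _
  | add a b _ _ ha hb => rw [mul_add]; exact Submodule.add_mem _ ha hb
  | smul c a _ ha => rw [mul_smul_comm]; exact Submodule.smul_mem _ c ha

/-- a singular vector is killed by the left ideal `NN` -/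
lemma NN_singular (l : Fin n → ℂ) {m : ℕ} {w : Verma l}
    (hw : ∀ i j : Fin n, i < j → (j : ℕ) < m → E i j • w = 0) {x : U n} (hx : x ∈ NN n m) :
    x • w = 0 := by
  have h := span_smul (W := (⊥ : Submodule ℂ (Verma l))) (v := w) ?_ hx
  · exact (Submodule.mem_bot ℂ).1 h
  · rintro _ ⟨u, hu, i, j, hij, hj, rfl⟩
    rw [mul_smul, hw i j hij hj, smul_zero]
    exact Submodule.zero_mem _

end Pool.Agent.K1H1.GT
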