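import Pool.Agent.K1H1.GT.Gel
import Pool.Agent.K1H1.GT.Abs

/-!
# The characters of the Gelfand–Tsetlin subalgebra on a Verma module
-/

set_option autoImplicit false
set_option linter.unusedSectionVars false

namespace Pool.Agent.K1H1.GT

open H67OL H67OL.DOMaux

attribute [local instance 100] LieRing.ofAssociativeRing

variable {n : ℕ}

/-- the degree of an exponent -/
noncomputable def dd : KK n →ₗ[ℕ] ℕ := Finsupp.linearCombination ℕ fun p => rw' p - cl p

/-- the strict order on the exponents -/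
def RR (k q : KK n) : Prop := dd q = dd k ∧ ∃ m, slt m k q

lemma RR_irr (k : KK n) : ¬ RR k k := by
  rintro ⟨_, m, _, h⟩
  exact lt_irrefl _ h

lemma RR_trans {a b c : KK n} (h1 : RR a b) (h2 : RR b c) : RR a c := by
  obtain ⟨e1, m1, w1, s1⟩ := h1
  obtain ⟨e2, m2, w2, s2⟩ := h2
  refine ⟨e2.trans e1, max m1 m2, fun m' hm' => ?_, ?_⟩
  · exact (w1 m' (le_trans (le_max_left _ _) hm')).trans (w2 m' (le_trans (le_max_right _ _) hm'))
  · rcases le_total m1 m2 with h | h
    · rw [max_eq_right h]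
      exact lt_of_le_of_lt (w1 m2 h) s2
    · rw [max_eq_left h]
      exact lt_of_lt_of_le s1 (w2 m1 h)

lemma vB_eq (l : Fin n → ℂ) (k : KK n) : vB l k = bv l k := vB_apply l k

lemma vB_coe (l : Fin n → ℂ) : (⇑(vB l) : KK n → Verma l) = bv l := funext fun k => vB_eq l k

lemma repr_bsp {l : Fin n → ℂ} {P : KK n → Prop} {v : Verma l} (hv : v ∈ bsp l P) {q : KK n}
    (hq : (vB l).repr v q ≠ 0) : P q := by
  unfold bsp at hv
  rw [← vB_coe, Module.Basis.mem_span_image] at hv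
  exact hv (Finsupp.mem_support_iff.2 hq)

lemma repr_bv (l : Fin n → ℂ) (k q : KK n) : (vB l).repr (bv l k) q = if k = q then 1 else 0 := by
  rw [← vB_eq, Module.Basis.repr_self, Finsupp.single_apply]

lemma repr_sub_smul (l : Fin n → ℂ) (v : Verma l) (c : ℂ) (k q : KK n) :
    (vB l).repr (v - c • bv l k) q = (vB l).repr v q - c * (if k = q then 1 else 0) := by
  rw [map_sub, map_smul (vB l).repr c (bv l k), Finsupp.sub_apply, Finsupp.smul_apply, repr_bv,
    smul_eq_mul]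

/-! ### the degree -/

lemma sum_dgr (w : List (NP n)) :
    ((w.map Subtype.val).map dgr).sum = ((dd (cnt w) : ℕ) : ℂ) := by
  induction w with
  | nil => simp
  | cons p w ih =>
    rw [List.map_cons, List.map_cons, List.sum_cons, ih, cnt_cons, map_add, Nat.cast_add]
    congr 1
    rw [dd, Finsupp.linearCombination_single, one_smul, Nat.cast_sub (cl_lt p).le]
    rfl

/-- the degree of the highest weight vector -/
noncomputable def c0 (l : Fin n → ℂ) : ℂ := ∑ i : Fin n, ((i : ℕ) : ℂ) * l i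

lemma hh_vv (l : Fin n → ℂ) : hh n • vv l = c0 l • vv l := by
  rw [hh, Finset.sum_smul, c0, Finset.sum_smul]
  refine Finset.sum_congr rfl fun i _ => ?_
  rw [smul_assoc, E_diag_vv, smul_smul]

lemma hh_bv (l : Fin n → ℂ) (k : KK n) : hh n • bv l k = (c0 l + ((dd k : ℕ) : ℂ)) • bv l k := by
  have h : ((lst k).map y : List (U n)) = ((lst k).map Subtype.val).map g := by
    rw [List.map_map]
    rfl
  rw [bv, h, smul_smul, hh_list, add_smul, mul_smul, hh_vv, sum_dgr, cnt_lst, smul_comm,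
    smul_assoc, ← add_smul]

lemma repr_hh (l : Fin n → ℂ) (v : Verma l) (q : KK n) :
    (vB l).repr (hh n • v) q = (c0 l + ((dd q : ℕ) : ℂ)) * (vB l).repr v q := by
  have h : (Finsupp.lapply q) ∘ₗ (vB l).repr.toLinearMap ∘ₗ
      (Algebra.lsmul ℂ ℂ (Verma l) (hh n)) =
      (c0 l + ((dd q : ℕ) : ℂ)) • ((Finsupp.lapply q) ∘ₗ (vB l).repr.toLinearMap) := by
    apply (vB l).ext
    intro k
    change (vB l).repr (hh n • vB l k) q = (c0 l + ((dd q : ℕ) : ℂ)) * (vB l).repr (vB l k) q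
    rw [vB_eq, hh_bv, map_smul, Finsupp.smul_apply, smul_eq_mul, repr_bv]
    split_ifs with h
    · rw [h]
    · rw [mul_zero, mul_zero]
  exact LinearMap.congr_fun h v

lemma dd_of_comm (l : Fin n → ℂ) {x : U n} (hx : hh n * x = x * hh n) {k q : KK n}
    (hq : (vB l).repr (x • bv l k) q ≠ 0) : dd q = dd k := by
  have h1 := repr_hh l (x • bv l k) q
  rw [smul_smul, hx, mul_smul, hh_bv, smul_comm, map_smul, Finsupp.smul_apply, smul_eq_mul] at h1
  have h2 := mul_right_cancel₀ hq h1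
  have h3 := add_left_cancel h2
  exact_mod_cast h3.symm

/-! ### the triangular action of the Gelfand–Tsetlin subalgebra -/

/-- the action of the Gelfand–Tsetlin subalgebra -/
noncomputable def rhoG (l : Fin n → ℂ) : Gam n →ₐ[ℂ] Module.End ℂ (Verma l) :=
  (Algebra.lsmul ℂ ℂ (Verma l)).comp (Gam n).val

lemma rhoG_apply (l : Fin n → ℂ) (x : Gam n) (v : Verma l) : rhoG l x v = (x : U n) • v := rfl

lemma repr_smul_sum (l : Fin n → ℂ) (x : U n) (v : Verma l) (q : KK n) :
    (vB l).repr (x • v) q =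
    ∑ r ∈ ((vB l).repr v).support, (vB l).repr v r * (vB l).repr (x • bv l r) q :=
  calc (vB l).repr (x • v) q = (vB l).repr (Algebra.lsmul ℂ ℂ (Verma l) x v) q := rfl
    _ = _ := by
      conv_lhs => rw [← (vB l).linearCombination_repr v, Finsupp.linearCombination_apply,
        Finsupp.sum]
      rw [map_sum, map_sum, Finsupp.finsetSum_apply]
      refine Finset.sum_congr rfl fun r _ => ?_
      rw [map_smul, map_smul, Finsupp.smul_apply, smul_eq_mul, vB_eq]
      rfl

lemma Zc_tri (l : Fin n → ℂ) {m : ℕ} {z : U n} (hz : z ∈ Zc n m) {k q : KK n}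
    (hq : (vB l).repr (z • bv l k) q ≠ 0) : q = k ∨ RR k q := by
  by_cases hqk : q = k
  · exact Or.inl hqk
  · refine Or.inr ⟨dd_of_comm l (Zc_comm_hh hz) hq, m, ?_⟩
    obtain ⟨P, _, hP⟩ := tri hz
    refine repr_bsp (hP l k) (q := q) ?_
    rw [repr_sub_smul, if_neg (fun h => hqk h.symm), mul_zero, sub_zero]
    exact hq

lemma Gam_tri (l : Fin n → ℂ) {x : U n} (hx : x ∈ Gam n) :
    ∀ {k q : KK n}, (vB l).repr (x • bv l k) q ≠ 0 → q = k ∨ RR k q := by
  unfold Gam at hx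
  induction hx using Algebra.adjoin_induction with
  | mem x hx =>
    intro k q hq
    obtain ⟨m, _, _, hz⟩ := hx
    exact Zc_tri l hz hq
  | algebraMap r =>
    intro k q hq
    left
    by_contra hne
    rw [algebraMap_smul, map_smul, Finsupp.smul_apply, repr_bv, if_neg (fun h => hne h.symm),
      smul_zero] at hq
    exact hq rfl
  | add x y _ _ hx hy =>
    intro k q hq
    rw [add_smul, map_add, Finsupp.add_apply] at hq
    by_cases h : (vB l).repr (x • bv l k) q = 0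
    · rw [h, zero_add] at hq
      exact hy hq
    · exact hx h
  | mul x y _ _ hx hy =>
    intro k q hq
    rw [mul_smul, repr_smul_sum] at hq
    obtain ⟨r, hr, h0⟩ := Finset.exists_ne_zero_of_sum_ne_zero hq
    have h1 := hx (right_ne_zero_of_mul h0)
    have h2 := hy (Finsupp.mem_support_iff.1 hr)
    rcases h2 with rfl | h2
    · exact h1
    · rcases h1 with rfl | h1
      · exact Or.inr h2
      · exact Or.inr (RR_trans h2 h1)

theorem TriV (l : Fin n → ℂ) : Abs.Tri (vB l) (rhoG l) RR where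
  irr := RR_irr
  tr := fun _ _ _ => RR_trans
  tri := by
    intro x k q hq
    rw [rhoG_apply, vB_eq] at hq
    exact Gam_tri l x.2 hq

lemma Gam_comm (x y : Gam n) : x * y = y * x := by
  apply Subtype.ext
  change (x : U n) * (y : U n) = (y : U n) * (x : U n)
  have hgen : ∀ a ∈ {z | ∃ m : ℕ, 1 ≤ m ∧ m ≤ n ∧ z ∈ Zc n m},
      ∀ b ∈ {z : U n | ∃ m : ℕ, 1 ≤ m ∧ m ≤ n ∧ z ∈ Zc n m}, Commute a b := by
    rintro a ⟨m, _, _, ha⟩ b ⟨m', _, _, hb⟩
    rcases le_total m m' with h | h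
    · exact (hb.2 a (Usub_mono h ha.1)).symm
    · exact ha.2 b (Usub_mono h hb.1)
  exact Algebra.commute_of_mem_adjoin_of_forall_mem_commute y.2 fun b hb =>
    (Algebra.commute_of_mem_adjoin_of_forall_mem_commute x.2 fun a ha =>
      (hgen a ha b hb).symm).symm

/-! ### the data of an exponent -/

/-- the sums of the entries of a column in the rows `≥ m` -/
noncomputable def av (m i : ℕ) : KK n →ₗ[ℕ] ℕ :=
  Finsupp.linearCombination ℕ fun p => if m ≤ rw' p ∧ cl p = i then 1 else 0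

/-- the vector of these sums -/
noncomputable def aa (m : ℕ) (k : KK n) : Fin m → ℕ := fun i => av m i k

lemma wt_kup (l : Fin n → ℂ) (m : ℕ) (k : KK n) {i : Fin n} (hi : (i : ℕ) < m) :
    wt l (kup m k) i = ext l m (aa m k) i := by
  rw [ext_apply l m _ hi, wt, sub_eq_add_neg]
  congr 1
  rw [aa]
  have h1 : av m (i : ℕ) (klo m k) = 0 := by
    refine linComb_lo (klo_lo m k) _ fun p hp => ?_
    rw [if_neg]
    omega
  have h2 : av m (i : ℕ) k = av m (i : ℕ) (kup m k) := by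
    conv_lhs => rw [← klo_add_kup m k, map_add, h1, zero_add]
  change _ = -((av m (i : ℕ) k : ℕ) : ℂ)
  rw [h2, av, Finsupp.linearCombination_apply, Finsupp.linearCombination_apply, Finsupp.sum,
    Finsupp.sum, Nat.cast_sum, ← Finset.sum_neg_distrib]
  refine Finset.sum_congr rfl fun p hp => ?_
  have h3 : m ≤ rw' p := kup_up m k p (Finsupp.mem_support_iff.1 hp)
  rw [ws, if_neg (show ¬ rw' p = (i : ℕ) by omega), nsmul_eq_mul, smul_eq_mul, Nat.cast_mul]
  by_cases h4 : cl p = (i : ℕ)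
  · rw [if_pos h4, if_pos ⟨h3, h4⟩]
    push_cast
    ring
  · rw [if_neg h4, if_neg (fun h => h4 h.2)]
    push_cast
    ring

lemma poly_unique {m : ℕ} {z : U n} {P Q : (Fin n → ℂ) → ℂ} (hP : IsPoly m z P)
    (hQ : IsPoly m z Q) (μ : Fin n → ℂ) : P μ = Q μ := by
  have h1 := hP μ (vv μ) μ (fun i _ => E_diag_vv μ i) (fun i j hij _ => E_vv μ hij)
  rw [hQ μ (vv μ) μ (fun i _ => E_diag_vv μ i) (fun i j hij _ => E_vv μ hij)] at h1
  exact (smul_left_injective ℂ (vv_ne μ) h1).symm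

/-- the values of the characters on the generators -/
lemma ch_gen (l : Fin n → ℂ) {m : ℕ} {z : U n} (hz : z ∈ Zc n m) (hG : z ∈ Gam n)
    {P : (Fin n → ℂ) → ℂ} (hP : IsPoly m z P) (k : KK n) :
    Abs.ch (TriV l) k ⟨z, hG⟩ = P (ext l m (aa m k)) := by
  obtain ⟨Q, hQ, hQ2⟩ := tri hz
  rw [poly_unique hP hQ, ← P_congr hQ fun i hi => wt_kup l m k hi, Abs.ch_apply, rhoG_apply,
    vB_eq]
  have h1 : (vB l).repr (z • bv l k - Q (wt l (kup m k)) • bv l k) k = 0 := by
    by_contra h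
    exact lt_irrefl _ (repr_bsp (hQ2 l k) h).2
  rw [repr_sub_smul, if_pos rfl, mul_one, sub_eq_zero] at h1
  exact h1

lemma mem_Gam {m : ℕ} (h1 : 1 ≤ m) (h2 : m ≤ n) {z : U n} (hz : z ∈ Zc n m) : z ∈ Gam n :=
  Algebra.subset_adjoin ⟨m, h1, h2, hz⟩

lemma ch_eq_of {l : Fin n → ℂ} (hl : IsRho l) {k k' : KK n}
    (h : ∀ m, 1 ≤ m → m ≤ n → ∃ τ : Equiv.Perm (Fin m), aa m k' ∘ τ = aa m k) :
    Abs.ch (TriV l) k = Abs.ch (TriV l) k' := by
  refine AlgHom.ext_of_adjoin_eq_top Algebra.adjoin_adjoin_coe_preimage ?_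
  rintro ⟨z, hG⟩ ⟨m, h1, h2, hz⟩
  obtain ⟨P, hP, _⟩ := tri hz
  obtain ⟨τ, hτ⟩ := h m h1 h2
  have e1 := ch_gen l hz hG hP k
  have e2 := ch_gen l hz hG hP k'
  refine e1.trans (Eq.trans ?_ e2.symm)
  rw [← hτ]
  exact Q_symm hz hP hl h2 τ _

lemma of_ch_eq {l : Fin n → ℂ} (hl : IsRho l) {k k' : KK n}
    (h : Abs.ch (TriV l) k = Abs.ch (TriV l) k') {m : ℕ} (h1 : 1 ≤ m) (h2 : m ≤ n) :
    ∃ τ : Equiv.Perm (Fin m), aa m k' ∘ τ = aa m k := by
  refine sep h2 hl _ _ fun z hz P hP => ?_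
  rw [← ch_gen l hz (mem_Gam h1 h2 hz) hP k, ← ch_gen l hz (mem_Gam h1 h2 hz) hP k', h]

end Pool.Agent.K1H1.GT
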