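import Pool.Agent.K1H1.GT.Char

/-!
# Counting, and the Gelfand–Tsetlin degree
-/

set_option autoImplicit false
set_option linter.unusedSectionVars false

namespace Pool.Agent.K1H1.GT

open H67OL H67OL.DOMaux

attribute [local instance 100] LieRing.ofAssociativeRing

variable {n : ℕ}

/-- tuples of permutations -/
abbrev PT (n : ℕ) : Type := (m : Fin n) → Equiv.Perm (Fin (m : ℕ))

lemma card_PT (n : ℕ) : Fintype.card (PT n) = ∏ k ∈ Finset.range n, k.factorial := by
  rw [Fintype.card_pi, ← Fin.prod_univ_eq_prod_range]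
  refine Finset.prod_congr rfl fun m _ => ?_
  rw [Fintype.card_perm, Fintype.card_fin]

lemma av_succ (p : NP n) (k : KK n) : av (rw' p) (cl p) k = k p + av (rw' p + 1) (cl p) k := by
  have h : av (rw' p) (cl p) = (Finsupp.lapply p : KK n →ₗ[ℕ] ℕ) + av (rw' p + 1) (cl p) := by
    apply Finsupp.lhom_ext'
    intro q
    ext
    simp only [LinearMap.comp_apply, Finsupp.lsingle_apply, LinearMap.add_apply,
      Finsupp.lapply_apply, av, Finsupp.linearCombination_single, Finsupp.single_apply, one_smul]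
    by_cases hqp : q = p
    · subst hqp
      rw [if_pos ⟨le_rfl, rfl⟩, if_pos rfl, if_neg]
      omega
    · rw [if_neg hqp, zero_add]
      have h1 : ¬ (rw' q = rw' p ∧ cl q = cl p) := by
        rintro ⟨h1, h2⟩
        apply hqp
        apply Subtype.ext
        exact Prod.ext (Fin.ext h1) (Fin.ext h2)
      by_cases h2 : rw' p ≤ rw' q ∧ cl q = cl p
      · rw [if_pos h2, if_pos]
        omega
      · rw [if_neg h2, if_neg]
        omega
  rw [h]
  rfl

lemma rw_lt (p : NP n) : rw' p < n := p.1.1.2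

lemma av_top (m i : ℕ) (hm : n ≤ m) (k : KK n) : av m i k = 0 := by
  rw [av, Finsupp.linearCombination_apply, Finsupp.sum]
  refine Finset.sum_eq_zero fun p _ => ?_
  rw [if_neg, smul_zero]
  have := rw_lt p
  omega

/-- an exponent is determined by its data -/
lemma data_inj {k k' : KK n} (h : ∀ m : Fin n, aa (m : ℕ) k = aa (m : ℕ) k') : k = k' := by
  have h1 : ∀ m i : ℕ, i < m → av m i k = av m i k' := by
    intro m i hi
    by_cases hm : m < n
    · exact congrFun (h ⟨m, hm⟩) ⟨i, hi⟩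
    · rw [av_top m i (not_lt.1 hm), av_top m i (not_lt.1 hm)]
  ext p
  have e1 := av_succ p k
  have e2 := av_succ p k'
  have e3 := h1 (rw' p) (cl p) (cl_lt p)
  have e4 := h1 (rw' p + 1) (cl p) (lt_trans (cl_lt p) (Nat.lt_succ_self _))
  omega

/-! ### the upper bound -/

lemma ker_eq {G : Type} [Ring G] [Algebra ℂ G] {f g : G →ₐ[ℂ] ℂ} (h : RingHom.ker f = RingHom.ker g) :
    f = g := by
  ext x
  have h1 : x - algebraMap ℂ G (f x) ∈ RingHom.ker f := by
    rw [RingHom.mem_ker, map_sub, AlgHom.commutes]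
    exact sub_self _
  rw [h, RingHom.mem_ker, map_sub, AlgHom.commutes, sub_eq_zero] at h1
  exact h1.symm

lemma ch_eq_of_max {l : Fin n → ℂ} {m : Ideal (Gam n)} (hm : m.IsMaximal) {k k' : KK n}
    (h : ∀ x ∈ m, Abs.ch (TriV l) k x = 0) (h' : ∀ x ∈ m, Abs.ch (TriV l) k' x = 0) :
    Abs.ch (TriV l) k = Abs.ch (TriV l) k' := by
  have key : ∀ f : Gam n →ₐ[ℂ] ℂ, (∀ x ∈ m, f x = 0) → m = RingHom.ker f := by
    intro f hf
    refine hm.eq_of_le ?_ fun x hx => hf x hx
    rw [Ne, Ideal.eq_top_iff_one, RingHom.mem_ker, map_one]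
    exact one_ne_zero
  exact ker_eq ((key _ h).symm.trans (key _ h'))

/-- The number of exponents with a given character. -/
lemma exists_finset {l : Fin n → ℂ} (hl : IsRho l) (m : Ideal (Gam n)) (hm : m.IsMaximal) :
    ∃ S : Finset (KK n), S.card ≤ ∏ k ∈ Finset.range n, k.factorial ∧
      ∀ k, (∀ x ∈ m, Abs.ch (TriV l) k x = 0) → k ∈ S := by
  classical
  set S0 : Set (KK n) := {k | ∀ x ∈ m, Abs.ch (TriV l) k x = 0} with hS0
  rcases S0.eq_empty_or_nonempty with h0 | ⟨k0, hk0⟩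
  · refine ⟨∅, Nat.zero_le _, fun k hk => ?_⟩
    have : k ∈ S0 := hk
    rw [h0] at this
    exact absurd this (Set.notMem_empty k)
  · have h1 : ∀ k : S0, ∃ τ : PT n, ∀ m' : Fin n, aa (m' : ℕ) k0 ∘ τ m' = aa (m' : ℕ) k.1 := by
      intro k
      have h2 : ∀ m' : Fin n, ∃ τ : Equiv.Perm (Fin (m' : ℕ)),
          aa (m' : ℕ) k0 ∘ τ = aa (m' : ℕ) k.1 := by
        intro m'
        rcases Nat.eq_zero_or_pos (m' : ℕ) with h3 | h3
        · refine ⟨1, ?_⟩
          funext i
          exact absurd i.2 (by omega)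
        · exact of_ch_eq hl (ch_eq_of_max hm k.2 hk0) h3 m'.2.le
      choose τ hτ using h2
      exact ⟨τ, hτ⟩
    choose Φ hΦ using h1
    have hinj : Function.Injective Φ := by
      intro k k' hkk
      apply Subtype.ext
      apply data_inj
      intro m'
      rw [← hΦ k m', ← hΦ k' m', hkk]
    have : Finite S0 := Finite.of_injective Φ hinj
    refine ⟨(Set.toFinite S0).toFinset, ?_, fun k hk => (Set.toFinite S0).mem_toFinset.2 hk⟩
    rw [← Set.ncard_eq_toFinset_card S0 (Set.toFinite S0), ← card_PT, ← Nat.card_eq_fintype_card]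
    exact Nat.card_le_card_of_injective Φ hinj

/-! ### the lower bound -/

/-- the extremal data -/
def BB (τ : PT n) (m i : ℕ) : ℕ :=
  if hm : m < n then (if hi : i < m then (n - m) * n + (τ ⟨m, hm⟩ ⟨i, hi⟩ : ℕ) else 0) else 0

lemma BB_lt (τ : PT n) {m i : ℕ} (hm : m < n) (hi : i < m) :
    BB τ m i = (n - m) * n + (τ ⟨m, hm⟩ ⟨i, hi⟩ : ℕ) := by
  rw [BB, dif_pos hm, dif_pos hi]

lemma BB_mono (τ : PT n) {m i : ℕ} (hm : m < n) (hi : i < m) : BB τ (m + 1) i ≤ BB τ m i := by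
  rw [BB_lt τ hm hi]
  by_cases h : m + 1 < n
  · have hi' : i < m + 1 := by omega
    rw [BB_lt τ h hi']
    have h1 : ((τ ⟨m + 1, h⟩ ⟨i, hi'⟩ : Fin (m + 1)) : ℕ) < m + 1 :=
      (τ ⟨m + 1, h⟩ ⟨i, hi'⟩).2
    have h2 : n - m = (n - (m + 1)) + 1 := by omega
    rw [h2, add_mul, one_mul]
    omega
  · rw [BB, dif_neg h]
    exact Nat.zero_le _

/-- the extremal exponents -/
noncomputable def kt (τ : PT n) : KK n :=
  Finsupp.equivFunOnFinite.symm fun p => BB τ (rw' p) (cl p) - BB τ (rw' p + 1) (cl p)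

lemma kt_apply (τ : PT n) (p : NP n) :
    kt τ p = BB τ (rw' p) (cl p) - BB τ (rw' p + 1) (cl p) := rfl

lemma av_kt (τ : PT n) (m : ℕ) (hm : m ≤ n) : ∀ i, i < m → av m i (kt τ) = BB τ m i := by
  induction hm using Nat.decreasingInduction with
  | self =>
    intro i _
    rw [av_top n i le_rfl, BB, dif_neg (lt_irrefl n)]
  | of_succ m hm ih =>
    intro i hi
    have h := av_succ (n := n) ⟨(⟨m, hm⟩, ⟨i, by omega⟩), hi⟩ (kt τ)
    have h1 : av m i (kt τ) = (BB τ m i - BB τ (m + 1) i) + av (m + 1) i (kt τ) := h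
    rw [h1, ih i (by omega), Nat.sub_add_cancel (BB_mono τ hm hi)]

lemma kt_inj : Function.Injective (kt (n := n)) := by
  intro τ τ' h
  funext m
  ext i
  have h1 := av_kt τ (m : ℕ) m.2.le i i.2
  have h2 := av_kt τ' (m : ℕ) m.2.le i i.2
  rw [h, h2, BB_lt τ m.2 i.2, BB_lt τ' m.2 i.2] at h1
  have h3 : ((τ' m i : Fin (m : ℕ)) : ℕ) = ((τ m i : Fin (m : ℕ)) : ℕ) := Nat.add_left_cancel h1
  exact h3.symm

lemma ch_kt {l : Fin n → ℂ} (hl : IsRho l) (τ : PT n) :
    Abs.ch (TriV l) (kt τ) = Abs.ch (TriV l) (kt 1) := by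
  refine ch_eq_of hl fun m h1 h2 => ?_
  rcases eq_or_lt_of_le h2 with h3 | h3
  · subst h3
    refine ⟨1, ?_⟩
    funext i
    change av m _ (kt 1) = av m _ (kt τ)
    rw [av_top m _ le_rfl, av_top m _ le_rfl]
  · refine ⟨τ ⟨m, h3⟩, ?_⟩
    funext i
    change av m ((τ ⟨m, h3⟩ i : Fin m) : ℕ) (kt 1) = av m (i : ℕ) (kt τ)
    rw [av_kt _ m h2 _ (τ ⟨m, h3⟩ i).2, av_kt _ m h2 _ i.2, BB_lt _ h3 (τ ⟨m, h3⟩ i).2,
      BB_lt _ h3 i.2]
    rfl

lemma le_dd (k : KK n) (p : NP n) : k p ≤ dd k := by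
  rw [dd, Finsupp.linearCombination_apply, Finsupp.sum]
  by_cases hp : p ∈ k.support
  · refine le_trans ?_ (Finset.single_le_sum (f := fun p => k p • (rw' p - cl p))
      (fun _ _ => Nat.zero_le _) hp)
    have := cl_lt p
    exact Nat.le_mul_of_pos_right _ (by omega)
  · rw [Finsupp.notMem_support_iff.1 hp]
    exact Nat.zero_le _

lemma finite_dd (D : ℕ) : {k : KK n | dd k ≤ D}.Finite := by
  refine Set.Finite.subset (Set.finite_Iic (Finsupp.equivFunOnFinite.symm fun _ : NP n => D)) ?_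
  intro k hk p
  exact (le_dd k p).trans hk

theorem GTdeg_eq {l : Fin n → ℂ} (hl : IsRho l) :
    GTdeg l = ((∏ k ∈ Finset.range n, k.factorial : ℕ) : Cardinal) := by
  classical
  apply le_antisymm
  · refine ciSup_le' fun m => ?_
    obtain ⟨S, hS, hmem⟩ := exists_finset hl m.1 m.2
    exact Abs.rank_le (TriV l) m.1 (genSpace l m.1) (fun v hv => hv) _ S hS hmem
  · set χ := Abs.ch (TriV l) (kt (1 : PT n)) with hχ
    have hmax : (RingHom.ker χ).IsMaximal := by
      apply RingHom.ker_isMaximal_of_surjective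
      intro c
      exact ⟨algebraMap ℂ _ c, by rw [AlgHom.commutes]; rfl⟩
    set F : Finset (KK n) := Finset.univ.image kt with hF
    have hcard : F.card = ∏ k ∈ Finset.range n, k.factorial := by
      rw [hF, Finset.card_image_of_injective _ kt_inj, Finset.card_univ, card_PT]
    set D : ℕ := F.sup dd with hD
    have h1 := Abs.le_rank (TriV l) Gam_comm χ (finite_dd (n := n) D).toFinset (by
      intro q hq r hR
      rw [Set.Finite.mem_toFinset] at hq ⊢
      change dd r ≤ D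
      rw [hR.1]
      exact hq) F (by
      intro k hk
      rw [Set.Finite.mem_toFinset]
      exact Finset.le_sup (f := dd) hk) (by
      intro k hk
      obtain ⟨τ, _, rfl⟩ := Finset.mem_image.1 hk
      exact ch_kt hl τ) (genSpace l (RingHom.ker χ)) (fun v hv => hv)
    rw [hcard] at h1
    refine h1.trans ?_
    exact le_ciSup (f := fun m : {m : Ideal (Gam n) // m.IsMaximal} =>
      Module.rank ℂ (genSpace l m.1)) Cardinal.bddAbove_of_small ⟨RingHom.ker χ, hmax⟩

lemma isRho_neg_rho (n : ℕ) : IsRho (-rho n) := by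
  intro i i' h
  change -(((n : ℂ) - 1) / 2 - ((i' : ℕ) : ℂ)) = -(((n : ℂ) - 1) / 2 - ((i : ℕ) : ℂ)) + 1
  rw [h]
  push_cast
  ring

/-- The Gelfand–Tsetlin degree of the Verma module `M(-ρ)` of `gl(n)` is `∏_{k<n} k!`. -/
theorem main (n : ℕ) : GTdeg (-rho n) = ((∏ k ∈ Finset.range n, k.factorial : ℕ) : Cardinal) :=
  GTdeg_eq (isRho_neg_rho n)

end Pool.Agent.K1H1.GT
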