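import Mathlib

/-!
# Gelfand–Tsetlin modules and Verma modules over `gl(n)`: definitions
-/

set_option autoImplicit false

namespace Pool.Agent.K1H1.GT

attribute [local instance 100] LieRing.ofAssociativeRing

/-- The Lie algebra `gl(n)`: complex `n × n` matrices with the commutator bracket. -/
abbrev gl (n : ℕ) : Type := Matrix (Fin n) (Fin n) ℂ

/-- The universal enveloping algebra of `gl(n)`. -/
abbrev U (n : ℕ) : Type := UniversalEnvelopingAlgebra ℂ (gl n)

/-- The image of the elementary matrix `E_{ij}` in `U(gl(n))`. -/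
noncomputable def E {n : ℕ} (i j : Fin n) : U n :=
  UniversalEnvelopingAlgebra.ι ℂ (Matrix.single i j (1 : ℂ))

/-- `U(gl(m))` inside `U(gl(n))`: the subalgebra generated by the `E_{ij}` whose indices are among
the first `m` ones. -/
noncomputable def Usub (n m : ℕ) : Subalgebra ℂ (U n) :=
  Algebra.adjoin ℂ {x | ∃ i j : Fin n, (i : ℕ) < m ∧ (j : ℕ) < m ∧ x = E i j}

/-- The center of `U(gl(m))`, as a subset of `U(gl(n))`. -/
def Zc (n m : ℕ) : Set (U n) := {z | z ∈ Usub n m ∧ ∀ x ∈ Usub n m, z * x = x * z}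

/-- The Gelfand–Tsetlin subalgebra of `U(gl(n))`: it is generated by the centers of
`U(gl(1)), ..., U(gl(n))`. -/
noncomputable def Gam (n : ℕ) : Subalgebra ℂ (U n) :=
  Algebra.adjoin ℂ {z | ∃ m : ℕ, 1 ≤ m ∧ m ≤ n ∧ z ∈ Zc n m}

/-- The left ideal of `U(gl(n))` generated by the elements `x - l(x)`, where `x` runs through the
Borel subalgebra `b`: by the `E_{ij}` with `i < j` and the `E_{ii} - l_i`. -/
noncomputable def vIdeal {n : ℕ} (l : Fin n → ℂ) : Submodule (U n) (U n) :=
  Submodule.span (U n) ({x | ∃ i j : Fin n, i < j ∧ x = E i j} ∪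
    {x | ∃ i : Fin n, x = E i i - algebraMap ℂ (U n) (l i)})

/-- The Verma module `M(l) = U(gl(n)) ⊗_{U(b)} ℂ_l`, in its presentation as the quotient of
`U(gl(n))` by the left ideal generated by the `x - l(x)`, `x ∈ b`. -/
abbrev Verma {n : ℕ} (l : Fin n → ℂ) : Type := U n ⧸ vIdeal l

/-- Half the sum of the positive roots, `((n-1)/2, (n-3)/2, ..., (1-n)/2)`. -/
noncomputable def rho (n : ℕ) : Fin n → ℂ := fun i => ((n : ℂ) - 1) / 2 - ((i : ℕ) : ℂ)

/-- The space `M_m` of all `v ∈ M(l)` that are killed by some power of the ideal `m` of the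
Gelfand–Tsetlin subalgebra. -/
noncomputable def genSpace {n : ℕ} (l : Fin n → ℂ) (m : Ideal (Gam n)) :
    Submodule ℂ (Verma l) where
  carrier := {v | ∃ k : ℕ, ∀ x ∈ m ^ k, (x : U n) • v = 0}
  zero_mem' := ⟨0, fun x _ => smul_zero _⟩
  add_mem' := by
    rintro a b ⟨k, hk⟩ ⟨k', hk'⟩
    refine ⟨max k k', fun x hx => ?_⟩
    rw [smul_add, hk x (Ideal.pow_le_pow_right (le_max_left _ _) hx),
      hk' x (Ideal.pow_le_pow_right (le_max_right _ _) hx), add_zero]
  smul_mem' := by
    rintro c a ⟨k, hk⟩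
    refine ⟨k, fun x hx => ?_⟩
    rw [smul_comm, hk x hx, smul_zero]

/-- The Gelfand–Tsetlin degree of the Verma module `M(l)`: the supremum of the dimensions of the
spaces `M_m`, for all maximal ideals `m` of the Gelfand–Tsetlin subalgebra. -/
noncomputable def GTdeg {n : ℕ} (l : Fin n → ℂ) : Cardinal :=
  ⨆ m : {m : Ideal (Gam n) // m.IsMaximal}, Module.rank ℂ (genSpace l m.1)

end Pool.Agent.K1H1.GT
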