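import Mathlib

/-!
# The generating series of the Gelfand invariants
-/

set_option autoImplicit false

namespace Pool.Agent.K1H1.GT

open Polynomial

/-- Multisets of complex numbers that become equal after adding the shift of the other one are
equal. -/
lemma multiset_shift {A B : Multiset ℂ} (h : A + B.map (· + 1) = B + A.map (· + 1)) : A = B := by
  classical
  have hinj : Function.Injective (fun x : ℂ => x + 1) := add_left_injective 1
  have h1 : ∀ x : ℂ, (A.count x : ℤ) - B.count x = A.count (x - 1) - B.count (x - 1) := by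
    intro x
    have h2 := congrArg (Multiset.count x) h
    have h3 : ∀ C : Multiset ℂ, Multiset.count x (C.map (· + 1)) = C.count (x - 1) := by
      intro C
      have := Multiset.count_map_eq_count' (fun x : ℂ => x + 1) C hinj (x - 1)
      rw [← this]
      congr 1
      ring
    rw [Multiset.count_add, Multiset.count_add, h3, h3] at h2
    omega
  have h2 : ∀ (N : ℕ) (x : ℂ), (A.count x : ℤ) - B.count x = A.count (x - N) - B.count (x - N) := by
    intro N
    induction N with
    | zero => intro x; simp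
    | succ N ih =>
      intro x
      rw [ih x, h1 (x - N)]
      have : x - (N : ℂ) - 1 = x - ((N + 1 : ℕ) : ℂ) := by push_cast; ring
      rw [this]
  ext x
  by_contra hne
  have h3 : ∀ N : ℕ, x - (N : ℂ) ∈ ((A + B).toFinset : Set ℂ) := by
    intro N
    by_contra hN
    rw [Finset.mem_coe, Multiset.mem_toFinset, Multiset.mem_add, not_or] at hN
    have h4 := h2 N x
    rw [Multiset.count_eq_zero_of_notMem hN.1, Multiset.count_eq_zero_of_notMem hN.2] at h4
    omega
  have h5 : Function.Injective (fun N : ℕ => x - (N : ℂ)) := by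
    intro a b hab
    have : (a : ℂ) = b := by
      have := hab
      simp only [sub_right_inj] at this
      exact this
    exact_mod_cast this
  exact (Set.infinite_of_injective_forall_mem h5 h3) (Finset.finite_toSet _)

/-- the recursion for the eigenvalues of the powers -/
def cc (m : ℕ) (ν : ℕ → ℂ) : ℕ → ℕ → ℂ
  | 0, _ => 1
  | p + 1, i => ν i * cc m ν p i + ∑ a ∈ Finset.Ico (i + 1) m, (cc m ν p i - cc m ν p a)

/-- the shifted parameters -/
def alp (m : ℕ) (ν : ℕ → ℂ) (i : ℕ) : ℂ := ν i + ((m - 1 - i : ℕ) : ℂ)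

lemma cc_succ (m : ℕ) (ν : ℕ → ℂ) (p i : ℕ) : cc m ν (p + 1) i =
    alp m ν i * cc m ν p i - ∑ a ∈ Finset.Ico (i + 1) m, cc m ν p a := by
  rw [cc, Finset.sum_sub_distrib, Finset.sum_const, Nat.card_Ico, nsmul_eq_mul, alp]
  have : m - (i + 1) = m - 1 - i := by omega
  rw [this]
  ring

/-- the generating series -/
noncomputable def us (m : ℕ) (ν : ℕ → ℂ) (i : ℕ) : PowerSeries ℂ := PowerSeries.mk fun p => cc m ν p i

lemma us_eq (m : ℕ) (ν : ℕ → ℂ) (i : ℕ) : us m ν i = 1 + PowerSeries.X *
    (PowerSeries.C (alp m ν i) * us m ν i - ∑ a ∈ Finset.Ico (i + 1) m, us m ν a) := by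
  ext p
  cases p with
  | zero => simp [us, cc]
  | succ p =>
    rw [map_add, PowerSeries.coeff_succ_X_mul, map_sub, PowerSeries.coeff_C_mul, map_sum]
    simp only [us, PowerSeries.coeff_mk, PowerSeries.coeff_one, Nat.succ_ne_zero, if_false,
      zero_add, cc_succ]

lemma series_prod (m : ℕ) (ν : ℕ → ℂ) (j : ℕ) (hj : j ≤ m) :
    (∏ i ∈ Finset.Ico j m, (1 - PowerSeries.X * PowerSeries.C (alp m ν i))) *
      (1 - PowerSeries.X * ∑ i ∈ Finset.Ico j m, us m ν i) =
    ∏ i ∈ Finset.Ico j m, (1 - PowerSeries.X * PowerSeries.C (alp m ν i + 1)) := by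
  induction hj using Nat.decreasingInduction with
  | self => simp
  | of_succ j hj ih =>
    rw [Finset.prod_eq_prod_Ico_succ_bot hj, Finset.sum_eq_sum_Ico_succ_bot hj,
      Finset.prod_eq_prod_Ico_succ_bot hj, ← ih]
    have h := us_eq m ν j
    rw [map_add, map_one]
    generalize (∏ i ∈ Finset.Ico (j + 1) m, (1 - PowerSeries.X * PowerSeries.C (alp m ν i))) = Q
    generalize (∑ i ∈ Finset.Ico (j + 1) m, us m ν i) = S at *
    generalize PowerSeries.C (alp m ν j) = c at *
    generalize us m ν j = u at *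
    linear_combination (-PowerSeries.X * Q) * h

/-- The polynomial identity that follows from the equality of all invariants. -/
lemma poly_id (m : ℕ) (ν ν' : ℕ → ℂ)
    (h : ∀ p, ∑ i ∈ Finset.range m, cc m ν p i = ∑ i ∈ Finset.range m, cc m ν' p i) :
    (∏ i ∈ Finset.range m, (1 - X * C (alp m ν i))) *
      (∏ i ∈ Finset.range m, (1 - X * C (alp m ν' i + 1))) =
    (∏ i ∈ Finset.range m, (1 - X * C (alp m ν' i))) *
      (∏ i ∈ Finset.range m, (1 - X * C (alp m ν i + 1))) := by
  have h1 := series_prod m ν 0 (Nat.zero_le _)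
  have h2 := series_prod m ν' 0 (Nat.zero_le _)
  have h3 : ∑ i ∈ Finset.Ico 0 m, us m ν i = ∑ i ∈ Finset.Ico 0 m, us m ν' i := by
    ext p
    rw [map_sum, map_sum]
    simp only [us, PowerSeries.coeff_mk, Nat.Ico_zero_eq_range]
    exact h p
  rw [← h3] at h2
  rw [Nat.Ico_zero_eq_range] at h1 h2
  have hc : ∀ α : ℕ → ℂ, ((∏ i ∈ Finset.range m, (1 - X * C (α i)) : ℂ[X]) : PowerSeries ℂ) =
      ∏ i ∈ Finset.range m, (1 - PowerSeries.X * PowerSeries.C (α i)) := by
    intro α
    rw [← Polynomial.coeToPowerSeries.ringHom_apply, map_prod]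
    refine Finset.prod_congr rfl fun i _ => ?_
    rw [Polynomial.coeToPowerSeries.ringHom_apply, Polynomial.coe_sub, Polynomial.coe_mul,
      Polynomial.coe_X, Polynomial.coe_C, Polynomial.coe_one]
  apply Polynomial.coe_injective
  rw [Polynomial.coe_mul, Polynomial.coe_mul, hc, hc, hc, hc, ← h1, ← h2]
  ring

/-- If all the invariants agree, then the parameters agree up to a permutation. -/
theorem sep_multiset (m : ℕ) (ν ν' : ℕ → ℂ)
    (h : ∀ p, ∑ i ∈ Finset.range m, cc m ν p i = ∑ i ∈ Finset.range m, cc m ν' p i) :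
    (Finset.range m).val.map (alp m ν) = (Finset.range m).val.map (alp m ν') := by
  have h1 := poly_id m ν ν' h
  apply multiset_shift
  have h2 : (∏ i ∈ Finset.range m, (X - C (alp m ν i))) *
      (∏ i ∈ Finset.range m, (X - C (alp m ν' i + 1))) =
    (∏ i ∈ Finset.range m, (X - C (alp m ν' i))) *
      (∏ i ∈ Finset.range m, (X - C (alp m ν i + 1))) := by
    have hinf : Set.Infinite ({x : ℂ | x ≠ 0}) := by
      have : ({x : ℂ | x ≠ 0}) = ({0} : Set ℂ)ᶜ := by ext; simp
      rw [this]
      exact (Set.finite_singleton 0).infinite_compl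
    refine Polynomial.eq_of_infinite_eval_eq _ _ (hinf.mono ?_)
    intro x hx
    have hx : x ≠ 0 := hx
    have h3 : ∀ α : ℕ → ℂ, eval x (∏ i ∈ Finset.range m, (X - C (α i))) =
        x ^ m * eval x⁻¹ (∏ i ∈ Finset.range m, (1 - X * C (α i))) := by
      intro α
      rw [eval_prod, eval_prod]
      have : x ^ m = ∏ _i ∈ Finset.range m, x := by rw [Finset.prod_const, Finset.card_range]
      rw [this, ← Finset.prod_mul_distrib]
      refine Finset.prod_congr rfl fun i _ => ?_
      simp only [eval_sub, eval_X, eval_C, eval_one, eval_mul]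
      field_simp
    have h4 := congrArg (eval x⁻¹) h1
    rw [eval_mul, eval_mul] at h4
    change eval x _ = eval x _
    rw [eval_mul, eval_mul, h3, h3, h3, h3]
    linear_combination (x ^ m * x ^ m) * h4
  have h5 : ∀ α : ℕ → ℂ, (∏ i ∈ Finset.range m, (X - C (α i))) =
      (((Finset.range m).val.map α).map fun a => X - C a).prod := by
    intro α
    rw [Multiset.map_map]
    rfl
  rw [h5, h5, h5, h5, ← Multiset.prod_add,
    ← Multiset.prod_add, ← Multiset.map_add, ← Multiset.map_add] at h2
  have h6 := congrArg Polynomial.roots h2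
  rw [Polynomial.roots_multiset_prod_X_sub_C, Polynomial.roots_multiset_prod_X_sub_C] at h6
  rw [Multiset.map_map, Multiset.map_map]
  exact h6

lemma exists_perm_of_card {m : ℕ} (a b : Fin m → ℕ)
    (h : ∀ x, Fintype.card {i // a i = x} = Fintype.card {i // b i = x}) :
    ∃ τ : Equiv.Perm (Fin m), b ∘ τ = a := by
  refine ⟨Equiv.ofFiberEquiv (f := a) (g := b) fun c => Fintype.equivOfCardEq (h c), ?_⟩
  funext i
  exact Equiv.ofFiberEquiv_map _ i

end Pool.Agent.K1H1.GT
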