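import Pool.Agent.K1H1.GT.Sym
import Pool.Agent.K1H1.GT.Ser

/-!
# The Gelfand invariants separate the characters
-/

set_option autoImplicit false
set_option linter.unusedSectionVars false

namespace Pool.Agent.K1H1.GT

open H67OL H67OL.DOMaux

attribute [local instance 100] LieRing.ofAssociativeRing

variable {n : ℕ}

/-- the first `m` indices -/
def ix (n m : ℕ) : Finset (Fin n) := Finset.univ.filter fun i => (i : ℕ) < m

lemma mem_ix {m : ℕ} {i : Fin n} : i ∈ ix n m ↔ (i : ℕ) < m := by simp [ix]

/-- the entries of the powers of the matrix `(E_ij)` -/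
noncomputable def XX (n m : ℕ) : ℕ → Fin n → Fin n → U n
  | 0, i, j => if i = j then 1 else 0
  | p + 1, i, j => ∑ a ∈ ix n m, XX n m p i a * E a j

lemma XX_mem {m : ℕ} (p : ℕ) : ∀ {i j : Fin n}, (i : ℕ) < m → (j : ℕ) < m →
    XX n m p i j ∈ Usub n m := by
  induction p with
  | zero =>
    intro i j _ _
    rw [XX]
    split_ifs
    · exact Subalgebra.one_mem _
    · exact Subalgebra.zero_mem _
  | succ p ih =>
    intro i j hi hj
    rw [XX]
    exact Subalgebra.sum_mem _ fun a ha => Subalgebra.mul_mem _ (ih hi (mem_ix.1 ha))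
      (E_mem_Usub (mem_ix.1 ha) hj)

lemma XX_comm {m : ℕ} {a b : Fin n} (ha : (a : ℕ) < m) (hb : (b : ℕ) < m) (p : ℕ) :
    ∀ i j : Fin n, E a b * XX n m p i j - XX n m p i j * E a b =
      (if b = i then XX n m p a j else 0) - (if j = a then XX n m p i b else 0) := by
  induction p with
  | zero =>
    intro i j
    simp only [XX]
    have h0 : (E a b * (if i = j then 1 else 0) : U n) = (if i = j then 1 else 0) * E a b := by
      split_ifs <;> simp
    rw [h0, sub_self]
    by_cases h1 : b = i
    · by_cases h2 : j = a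
      · rw [if_pos h1, if_pos h2, if_pos h2.symm, if_pos h1.symm, sub_self]
      · rw [if_pos h1, if_neg (fun h => h2 h.symm), if_neg h2, sub_zero]
    · by_cases h2 : j = a
      · rw [if_neg h1, if_pos h2, if_neg (fun h => h1 h.symm), sub_zero]
      · rw [if_neg h1, if_neg h2, sub_zero]
  | succ p ih =>
    intro i j
    simp only [XX]
    have h1 : ∀ c ∈ ix n m, (E a b * (XX n m p i c * E c j) : U n) - XX n m p i c * E c j * E a b =
        (if b = i then XX n m p a c * E c j else 0) - (if c = a then XX n m p i b * E a j else 0) +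
        ((if b = c then XX n m p i b * E a j else 0) -
          (if j = a then XX n m p i c * E c b else 0)) := by
      intro c _
      have e1 := ih i c
      have e2 := E_comm a b c j
      have e3 : (E a b * (XX n m p i c * E c j) : U n) - XX n m p i c * E c j * E a b =
          (E a b * XX n m p i c - XX n m p i c * E a b) * E c j +
          XX n m p i c * (E a b * E c j - E c j * E a b) := by
        noncomm_ring
      rw [e3, e1, e2, sub_mul, mul_sub]
      congr 1
      · congr 1
        · split_ifs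
          · rfl
          · rw [zero_mul]
        · split_ifs with h
          · rw [h]
          · rw [zero_mul]
      · congr 1
        · split_ifs with h
          · rw [h]
          · rw [mul_zero]
        · split_ifs
          · rfl
          · rw [mul_zero]
    rw [Finset.mul_sum, Finset.sum_mul, ← Finset.sum_sub_distrib, Finset.sum_congr rfl h1,
      Finset.sum_add_distrib, Finset.sum_sub_distrib, Finset.sum_sub_distrib,
      Finset.sum_ite_eq', Finset.sum_ite_eq, if_pos (mem_ix.2 ha), if_pos (mem_ix.2 hb)]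
    have h2 : (∑ c ∈ ix n m, if b = i then XX n m p a c * E c j else 0 : U n) =
        if b = i then ∑ c ∈ ix n m, XX n m p a c * E c j else 0 := by
      split_ifs
      · rfl
      · exact Finset.sum_const_zero
    have h3 : (∑ c ∈ ix n m, if j = a then XX n m p i c * E c b else 0 : U n) =
        if j = a then ∑ c ∈ ix n m, XX n m p i c * E c b else 0 := by
      split_ifs
      · rfl
      · exact Finset.sum_const_zero
    rw [h2, h3]
    abel

/-- the Gelfand invariants -/
noncomputable def GI (n m p : ℕ) : U n := ∑ i ∈ ix n m, XX n m p i i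

lemma GI_mem (m p : ℕ) : GI n m p ∈ Zc n m := by
  refine ⟨Subalgebra.sum_mem _ fun i hi => XX_mem p (mem_ix.1 hi) (mem_ix.1 hi), ?_⟩
  intro x hx
  unfold Usub at hx
  induction hx using Algebra.adjoin_induction with
  | mem x hx =>
    obtain ⟨a, b, ha, hb, rfl⟩ := hx
    rw [eq_comm, ← sub_eq_zero, GI, Finset.mul_sum, Finset.sum_mul, ← Finset.sum_sub_distrib,
      Finset.sum_congr rfl fun i _ => XX_comm ha hb p i i, Finset.sum_sub_distrib,
      Finset.sum_ite_eq, Finset.sum_ite_eq', if_pos (mem_ix.2 ha), if_pos (mem_ix.2 hb), sub_self]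
  | algebraMap r => exact (Algebra.commutes r _).symm
  | add x y _ _ hx hy => rw [mul_add, add_mul, hx, hy]
  | mul x y _ _ hx hy => rw [← mul_assoc, hx, mul_assoc, hy, mul_assoc]

/-- extension of a weight to the natural numbers -/
def nu (μ : Fin n → ℂ) (i : ℕ) : ℂ := if h : i < n then μ ⟨i, h⟩ else 0

lemma nu_apply (μ : Fin n → ℂ) (i : Fin n) : nu μ (i : ℕ) = μ i := dif_pos i.2

lemma sum_ix {M : Type} [AddCommMonoid M] {m : ℕ} (hmn : m ≤ n) (f : ℕ → M) (i : ℕ) :
    ∑ a ∈ ix n m, (if i < (a : ℕ) then f a else 0) = ∑ a ∈ Finset.Ico (i + 1) m, f a := by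
  rw [ix, Finset.sum_filter]
  have h := Fin.sum_univ_eq_sum_range (fun a => if a < m then (if i < a then f a else 0) else 0) n
  rw [h]
  symm
  refine Finset.sum_subset_zero_on_sdiff ?_ ?_ ?_
  · intro a ha
    rw [Finset.mem_Ico] at ha
    rw [Finset.mem_range]
    omega
  · intro a ha
    rw [Finset.mem_sdiff, Finset.mem_Ico] at ha
    split_ifs with h1 h2
    · exact absurd ⟨by omega, h1⟩ ha.2
    · rfl
    · rfl
  · intro a ha
    rw [Finset.mem_Ico] at ha
    rw [if_pos ha.2, if_pos (by omega)]

lemma sum_ix' {M : Type} [AddCommMonoid M] {m : ℕ} (hmn : m ≤ n) (f : ℕ → M) :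
    ∑ a ∈ ix n m, f a = ∑ a ∈ Finset.range m, f a := by
  rw [ix, Finset.sum_filter]
  have h := Fin.sum_univ_eq_sum_range (fun a => if a < m then f a else 0) n
  rw [h]
  symm
  refine Finset.sum_subset_zero_on_sdiff ?_ ?_ ?_
  · intro a ha
    rw [Finset.mem_range] at *
    omega
  · intro a ha
    rw [Finset.mem_sdiff, Finset.mem_range, Finset.mem_range] at ha
    rw [if_neg ha.2]
  · intro a ha
    rw [Finset.mem_range] at ha
    rw [if_pos ha]

lemma XX_vv (μ : Fin n → ℂ) {m : ℕ} (hmn : m ≤ n) (p : ℕ) :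
    (∀ i j : Fin n, i < j → (j : ℕ) < m → XX n m p i j • vv μ = 0) ∧
    (∀ i : Fin n, (i : ℕ) < m → XX n m p i i • vv μ = cc m (nu μ) p i • vv μ) := by
  induction p with
  | zero =>
    refine ⟨fun i j hij _ => ?_, fun i _ => ?_⟩
    · rw [XX, if_neg hij.ne, zero_smul]
    · rw [XX, if_pos rfl, one_smul, cc, one_smul]
  | succ p ih =>
    obtain ⟨ih1, ih2⟩ := ih
    -- the terms of the sum
    have h0 : ∀ i j a : Fin n, i ≤ j → (j : ℕ) < m → (a : ℕ) < m → (XX n m p i a * E a j) • vv μ =
        (if a = j then μ j • XX n m p i j • vv μ else 0) +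
        (if (j : ℕ) < (a : ℕ) then XX n m p i j • vv μ -
          (if j = i then XX n m p a a • vv μ else 0) else 0) := by
      intro i j a hij hj ha
      rcases lt_trichotomy a j with h | h | h
      · rw [mul_smul, E_vv μ h, smul_zero, if_neg h.ne, if_neg, add_zero]
        have : (a : ℕ) < j := h
        omega
      · subst h
        rw [mul_smul, E_diag_vv, smul_comm, if_pos rfl, if_neg (lt_irrefl _), add_zero]
      · have h1 := XX_comm (n := n) ha hj p i a
        have h2 : (XX n m p i a * E a j : U n) = E a j * XX n m p i a -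
            ((if j = i then XX n m p a a else 0) - (if a = a then XX n m p i j else 0)) := by
          rw [← h1]
          abel
        rw [h2, if_pos rfl, sub_smul, sub_smul, mul_smul, ih1 i a (lt_of_le_of_lt hij h) ha,
          smul_zero, if_neg h.ne', if_pos (show (j : ℕ) < (a : ℕ) from h), zero_add, zero_sub,
          neg_sub]
        congr 1
        split_ifs
        · rfl
        · rw [zero_smul]
    have hsum : ∀ i j : Fin n, i ≤ j → (j : ℕ) < m → XX n m (p + 1) i j • vv μ =
        μ j • XX n m p i j • vv μ + ∑ a ∈ ix n m, (if (j : ℕ) < (a : ℕ) then XX n m p i j • vv μ -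
          (if j = i then XX n m p a a • vv μ else 0) else 0) := by
      intro i j hij hj
      rw [XX, Finset.sum_smul, Finset.sum_congr rfl fun a ha => h0 i j a hij hj (mem_ix.1 ha),
        Finset.sum_add_distrib, Finset.sum_ite_eq', if_pos (mem_ix.2 hj)]
    refine ⟨fun i j hij hj => ?_, fun i hi => ?_⟩
    · rw [hsum i j hij.le hj, ih1 i j hij hj, smul_zero, zero_add]
      refine Finset.sum_eq_zero fun a _ => ?_
      rw [if_neg hij.ne', sub_zero]
      split_ifs <;> rfl
    · rw [hsum i i le_rfl hi, ih2 i hi, cc, add_smul, smul_smul, nu_apply, Finset.sum_smul,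
        ← sum_ix hmn (fun a => (cc m (nu μ) p i - cc m (nu μ) p a) • vv μ)]
      congr 1
      refine Finset.sum_congr rfl fun a ha => ?_
      rw [if_pos rfl, ih2 a (mem_ix.1 ha), ← sub_smul]

/-- the eigenvalue of a Gelfand invariant -/
lemma GI_vv (μ : Fin n → ℂ) {m : ℕ} (hmn : m ≤ n) (p : ℕ) :
    GI n m p • vv μ = (∑ i ∈ Finset.range m, cc m (nu μ) p i) • vv μ := by
  rw [GI, Finset.sum_smul, Finset.sum_congr rfl fun i hi => (XX_vv μ hmn p).2 i (mem_ix.1 hi),
    ← Finset.sum_smul, sum_ix' hmn]

/-- The centers separate the parameters up to permutations. -/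
theorem sep {m : ℕ} (hmn : m ≤ n) {l : Fin n → ℂ} (hl : IsRho l) (a b : Fin m → ℕ)
    (h : ∀ z ∈ Zc n m, ∀ P, IsPoly m z P → P (ext l m a) = P (ext l m b)) :
    ∃ τ : Equiv.Perm (Fin m), b ∘ τ = a := by
  have h1 : ∀ p, ∑ i ∈ Finset.range m, cc m (nu (ext l m a)) p i =
      ∑ i ∈ Finset.range m, cc m (nu (ext l m b)) p i := by
    intro p
    obtain ⟨P, hP, _⟩ := tri (GI_mem (n := n) m p)
    have h2 : ∀ μ : Fin n → ℂ, P μ = ∑ i ∈ Finset.range m, cc m (nu μ) p i := by
      intro μ
      have h3 := hP μ (vv μ) μ (fun i _ => E_diag_vv μ i) (fun i j hij _ => E_vv μ hij)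
      rw [GI_vv μ hmn] at h3
      exact (smul_left_injective ℂ (vv_ne μ) h3).symm
    rw [← h2, ← h2]
    exact h _ (GI_mem m p) P hP
  have h2 := sep_multiset m _ _ h1
  -- the shifted parameters are `c - a i`
  obtain ⟨c, hc⟩ : ∃ c : ℂ, ∀ (a : Fin m → ℕ) (i : Fin m),
      alp m (nu (ext l m a)) i = c - a i := by
    rcases Nat.eq_zero_or_pos m with hm | hm
    · subst hm
      exact ⟨0, fun a i => i.elim0⟩
    · refine ⟨l ⟨0, by omega⟩ + ((m - 1 : ℕ) : ℂ), fun a i => ?_⟩
      have h3 : ∀ j : ℕ, ∀ hj : j < n, l ⟨j, hj⟩ = l ⟨0, by omega⟩ + (j : ℂ) := by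
        intro j
        induction j with
        | zero => intro hj; simp
        | succ j ih =>
          intro hj
          rw [hl ⟨j, by omega⟩ ⟨j + 1, hj⟩ rfl, ih (by omega)]
          push_cast
          ring
      have hin : (i : ℕ) < n := lt_of_lt_of_le i.2 hmn
      have h4 := nu_apply (ext l m a) ⟨i, hin⟩
      have h5 : ((m - 1 - (i : ℕ) : ℕ) : ℂ) = ((m - 1 : ℕ) : ℂ) - ((i : ℕ) : ℂ) := by
        rw [Nat.cast_sub]
        omega
      change alp m (nu (ext l m a)) (i : ℕ) = _
      rw [alp, show nu (ext l m a) (i : ℕ) = ext l m a ⟨i, hin⟩ from h4,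
        ext_apply l m a (show ((⟨i, hin⟩ : Fin n) : ℕ) < m from i.2), h3, h5]
      ring
  apply exists_perm_of_card
  intro x
  have h3 := congrArg (Multiset.count (c - (x : ℂ))) h2
  have h4 : ∀ a : Fin m → ℕ, Multiset.count (c - (x : ℂ))
      ((Finset.range m).val.map (alp m (nu (ext l m a)))) = Fintype.card {i // a i = x} := by
    intro a
    rw [Multiset.count_map, Fintype.card_subtype, Finset.card_filter]
    have h5 : (Multiset.filter (fun i => c - (x : ℂ) = alp m (nu (ext l m a)) i)
        (Finset.range m).val).card = ((Finset.range m).filter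
          (fun i => c - (x : ℂ) = alp m (nu (ext l m a)) i)).card := rfl
    rw [h5, Finset.card_filter, ← Fin.sum_univ_eq_sum_range (fun i => if c - (x : ℂ) =
      alp m (nu (ext l m a)) i then 1 else 0)]
    refine Finset.sum_congr rfl fun i _ => ?_
    rw [hc]
    have h6 : (c - (x : ℂ) = c - (a i : ℂ)) = (a i = x) := by
      rw [sub_right_inj, Nat.cast_inj]
      exact propext eq_comm
    simp only [h6]
  rw [h4, h4] at h3
  exact h3

end Pool.Agent.K1H1.GT
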