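import Pool.Agent.K1H1.GT.Act

/-!
# The Harish-Chandra decomposition of central elements
-/

set_option autoImplicit false
set_option linter.unusedSectionVars false

namespace Pool.Agent.K1H1.GT

open H67OL H67OL.DOMaux

attribute [local instance 100] LieRing.ofAssociativeRing

variable {n : ℕ}

/-- the element that measures the degree -/
noncomputable def hh (n : ℕ) : U n := ∑ i : Fin n, ((i : ℕ) : ℂ) • E i i

/-- the degree of a generator -/
noncomputable def dgr (p : Ix n) : ℂ := (((p.1 : Fin n) : ℕ) : ℂ) - (((p.2 : Fin n) : ℕ) : ℂ)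

lemma hh_g (p : Ix n) : (hh n * g p : U n) = g p * hh n + dgr p • g p := by
  have h : ∀ i : Fin n, (E i i * g p : U n) - g p * E i i =
      (if i = p.1 then g p else 0) - (if i = p.2 then g p else 0) := by
    intro i
    have h2 := E_comm i i p.1 p.2
    change (E i i * E p.1 p.2 : U n) - E p.1 p.2 * E i i = _
    rw [h2]
    congr 1
    · by_cases h : i = p.1
      · rw [if_pos h, if_pos h, h]; rfl
      · rw [if_neg h, if_neg h]
    · by_cases h : i = p.2
      · rw [if_pos h.symm, if_pos h, h]; rfl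
      · rw [if_neg (fun h' => h h'.symm), if_neg h]
  rw [← sub_eq_iff_eq_add']
  rw [hh, Finset.sum_mul, Finset.mul_sum, ← Finset.sum_sub_distrib]
  have h3 : ∀ i : Fin n, ((((i : ℕ) : ℂ) • E i i) * g p : U n) - g p * (((i : ℕ) : ℂ) • E i i) =
      (if i = p.1 then ((i : ℕ) : ℂ) • g p else 0) - (if i = p.2 then ((i : ℕ) : ℂ) • g p else 0) := by
    intro i
    rw [smul_mul_assoc, mul_smul_comm, ← smul_sub, h, smul_sub, smul_ite, smul_ite, smul_zero]
  rw [Finset.sum_congr rfl fun i _ => h3 i, Finset.sum_sub_distrib, Finset.sum_ite_eq',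
    Finset.sum_ite_eq', if_pos (Finset.mem_univ _), if_pos (Finset.mem_univ _), ← sub_smul]
  rfl

lemma hh_list (w : List (Ix n)) : (hh n * (w.map g).prod : U n) =
    (w.map g).prod * hh n + (w.map dgr).sum • (w.map g).prod := by
  induction w with
  | nil => simp
  | cons p w ih =>
    rw [List.map_cons, List.prod_cons, ← mul_assoc, hh_g, add_mul, mul_assoc, ih, mul_add,
      List.map_cons, List.sum_cons, add_smul, smul_mul_assoc, mul_smul_comm, mul_assoc]
    abel

/-- the degree of a basis element -/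
noncomputable def dg (s : Ix n →₀ ℕ) : ℂ := ((lst s).map dgr).sum

lemma repr_D (z : U n) (s : Ix n →₀ ℕ) :
    (bet n).repr (hh n * z - z * hh n) s = dg s * (bet n).repr z s := by
  let D : U n →ₗ[ℂ] U n := LinearMap.mulLeft ℂ (hh n) - LinearMap.mulRight ℂ (hh n)
  have h : (Finsupp.lapply s) ∘ₗ (bet n).repr.toLinearMap ∘ₗ D =
      dg s • ((Finsupp.lapply s) ∘ₗ (bet n).repr.toLinearMap) := by
    apply (bet n).ext
    intro t
    have h1 : D (bet n t) = dg t • bet n t := by
      change hh n * bet n t - bet n t * hh n = _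
      rw [bet_apply, hh_list, add_sub_cancel_left]
      rfl
    change (bet n).repr (D (bet n t)) s = dg s * (bet n).repr (bet n t) s
    rw [h1, map_smul, Module.Basis.repr_self, Finsupp.smul_apply, smul_eq_mul,
      Finsupp.single_apply]
    split_ifs with h
    · rw [h]
    · rw [mul_zero, mul_zero]
  exact LinearMap.congr_fun h z

/-- the diagonal part of `U(gl(m))` -/
noncomputable def diagS (n m : ℕ) : Subalgebra ℂ (U n) :=
  Algebra.adjoin ℂ {x | ∃ i : Fin n, (i : ℕ) < m ∧ x = E i i}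

lemma sorted_upper {m : ℕ} (w : List (Ix n)) (hs : w.Pairwise (· ≤ ·))
    (hw : ∀ p ∈ w, p ∈ Cm n m) (h : ∃ p ∈ w, (p.1 : Fin n) < p.2) : (w.map g).prod ∈ NN n m := by
  induction w with
  | nil => simp at h
  | cons p w ih =>
    rw [List.pairwise_cons] at hs
    rw [List.map_cons, List.prod_cons]
    by_cases h' : ∃ q ∈ w, (q.1 : Fin n) < q.2
    · exact NN_mul (g_mem_Usub (hw p (List.mem_cons_self ..)))
        (ih hs.2 (fun q hq => hw q (List.mem_cons_of_mem _ hq)) h')
    · obtain ⟨q, hq, hq'⟩ := h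
      rcases List.mem_cons.1 hq with rfl | hq
      · cases w with
        | nil =>
          rw [List.map_nil, List.prod_nil, mul_one]
          refine Submodule.subset_span ⟨1, Subalgebra.one_mem _, q.1, q.2, hq',
            (hw q (List.mem_cons_self ..)).2, ?_⟩
          rw [one_mul]
          rfl
        | cons r w =>
          exfalso
          have h1 := hs.1 r (List.mem_cons_self ..)
          have h2 : ¬ (r.1 : Fin n) < r.2 := fun h => h' ⟨r, List.mem_cons_self .., h⟩
          have h3 : r < q := by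
            rcases eq_or_lt_of_le (not_lt.1 h2) with h | h
            · exact diag_lt h.symm hq'
            · exact lt_of_neg h (not_lt.2 hq'.le)
          exact absurd h1 (not_le.2 h3)
      · exact absurd ⟨q, hq, hq'⟩ h'

lemma diag_prod_mem {m : ℕ} (w : List (Ix n)) (hw : ∀ p ∈ w, p ∈ Cm n m ∧ (p.1 : Fin n) = p.2) :
    (w.map g).prod ∈ diagS n m := by
  refine Subalgebra.list_prod_mem _ ?_
  intro x hx
  obtain ⟨p, hp, rfl⟩ := List.mem_map.1 hx
  refine Algebra.subset_adjoin ⟨p.1, (hw p hp).1.1, ?_⟩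
  change E p.1 p.2 = _
  rw [← (hw p hp).2]

lemma dg_ne (w : List (Ix n)) (hw : ∀ p ∈ w, ¬ (p.1 : Fin n) < p.2)
    (h : ∃ p ∈ w, (p.2 : Fin n) < p.1) : (w.map dgr).sum ≠ 0 := by
  have h1 : ∀ w : List (Ix n), (∀ p ∈ w, ¬ (p.1 : Fin n) < p.2) → (w.map dgr).sum =
      (((w.map fun p => ((p.1 : Fin n) : ℕ) - ((p.2 : Fin n) : ℕ)).sum : ℕ) : ℂ) := by
    intro w
    induction w with
    | nil => intro _; simp
    | cons p w ih =>
      intro hw
      have h2 : ((p.2 : Fin n) : ℕ) ≤ ((p.1 : Fin n) : ℕ) := not_lt.1 (hw p (List.mem_cons_self ..))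
      rw [List.map_cons, List.sum_cons, ih fun q hq => hw q (List.mem_cons_of_mem _ hq),
        List.map_cons, List.sum_cons, Nat.cast_add, Nat.cast_sub h2]
      rfl
  rw [h1 w hw, Nat.cast_ne_zero]
  obtain ⟨p, hp, hlt⟩ := h
  intro h0
  rw [List.sum_eq_zero_iff] at h0
  have := h0 _ (List.mem_map_of_mem hp)
  have h3 : ((p.2 : Fin n) : ℕ) < ((p.1 : Fin n) : ℕ) := hlt
  omega

lemma HC_mem {m : ℕ} {z : U n} (hz : z ∈ Usub n m) (hc : hh n * z = z * hh n) :
    z ∈ Subalgebra.toSubmodule (diagS n m) ⊔ NN n m := by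
  have h1 : z ∈ Submodule.span ℂ (bet n '' {s | ∀ i, s i ≠ 0 → i ∈ Cm n m}) := by
    refine Submodule.span_mono ?_ (Usub_span hz)
    rintro _ ⟨s, hs, rfl⟩
    exact ⟨s, hs, bet_apply s⟩
  rw [Module.Basis.mem_span_image] at h1
  rw [← (bet n).linearCombination_repr z, Finsupp.linearCombination_apply, Finsupp.sum]
  refine Submodule.sum_mem _ fun s hs => Submodule.smul_mem _ _ ?_
  have hs1 : ∀ i, s i ≠ 0 → i ∈ Cm n m := h1 hs
  have hs2 : dg s = 0 := by
    have h2 := repr_D z s
    rw [hc, sub_self, map_zero, Finsupp.zero_apply] at h2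
    rcases mul_eq_zero.1 h2.symm with h | h
    · exact h
    · exact absurd h (Finsupp.mem_support_iff.1 hs)
  rw [bet_apply]
  by_cases hu : ∃ p ∈ lst s, (p.1 : Fin n) < p.2
  · exact Submodule.mem_sup_right (sorted_upper _ (lst_sorted s)
      (fun p hp => hs1 p (mem_lst.1 hp)) hu)
  · push Not at hu
    by_cases hl : ∃ p ∈ lst s, (p.2 : Fin n) < p.1
    · exact absurd hs2 (dg_ne _ (fun p hp => not_lt.2 (hu p hp)) hl)
    · push Not at hl
      exact Submodule.mem_sup_left (diag_prod_mem _ fun p hp =>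
        ⟨hs1 p (mem_lst.1 hp), le_antisymm (hl p hp) (hu p hp)⟩)

lemma comm_outer {m : ℕ} {z : U n} (hz : z ∈ Usub n m) {i : Fin n} (hi : m ≤ (i : ℕ)) :
    E i i * z = z * E i i := by
  unfold Usub at hz
  induction hz using Algebra.adjoin_induction with
  | mem x hx =>
    obtain ⟨a, b, ha, hb, rfl⟩ := hx
    have h := E_comm i i a b
    rw [if_neg, if_neg, sub_zero, sub_eq_zero] at h
    · exact h
    · rintro rfl; omega
    · rintro rfl; omega
  | algebraMap r => exact (Algebra.commutes r _).symm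
  | add x y _ _ hx hy => rw [mul_add, add_mul, hx, hy]
  | mul x y _ _ hx hy => rw [← mul_assoc, hx, mul_assoc, hy, mul_assoc]

lemma Zc_comm_diag {m : ℕ} {z : U n} (hz : z ∈ Zc n m) (i : Fin n) : E i i * z = z * E i i := by
  by_cases h : (i : ℕ) < m
  · exact (hz.2 _ (E_mem_Usub h h)).symm
  · exact comm_outer hz.1 (not_lt.1 h)

lemma Zc_comm_hh {m : ℕ} {z : U n} (hz : z ∈ Zc n m) : hh n * z = z * hh n := by
  rw [hh, Finset.sum_mul, Finset.mul_sum]
  refine Finset.sum_congr rfl fun i _ => ?_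
  rw [smul_mul_assoc, mul_smul_comm, Zc_comm_diag hz]

lemma diag_poly {m : ℕ} {H : U n} (hH : H ∈ diagS n m) : ∃ P : (Fin n → ℂ) → ℂ,
    ∀ (l : Fin n → ℂ) (w : Verma l) (μ : Fin n → ℂ),
      (∀ i : Fin n, (i : ℕ) < m → E i i • w = μ i • w) → H • w = P μ • w := by
  unfold diagS at hH
  induction hH using Algebra.adjoin_induction with
  | mem x hx =>
    obtain ⟨i, hi, rfl⟩ := hx
    exact ⟨fun μ => μ i, fun l w μ h => h i hi⟩
  | algebraMap r => exact ⟨fun _ => r, fun l w μ _ => algebraMap_smul _ r w⟩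
  | add x y _ _ hx hy =>
    obtain ⟨P, hP⟩ := hx
    obtain ⟨Q, hQ⟩ := hy
    exact ⟨fun μ => P μ + Q μ, fun l w μ h => by rw [add_smul, add_smul, hP l w μ h, hQ l w μ h]⟩
  | mul x y _ _ hx hy =>
    obtain ⟨P, hP⟩ := hx
    obtain ⟨Q, hQ⟩ := hy
    refine ⟨fun μ => P μ * Q μ, fun l w μ h => ?_⟩
    rw [mul_smul, mul_smul, hQ l w μ h, smul_comm, hP l w μ h, smul_comm]

theorem HC {m : ℕ} {z : U n} (hz : z ∈ Zc n m) : ∃ P : (Fin n → ℂ) → ℂ, ∃ N ∈ NN n m,
    ∀ (l : Fin n → ℂ) (w : Verma l) (μ : Fin n → ℂ),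
      (∀ i : Fin n, (i : ℕ) < m → E i i • w = μ i • w) → z • w = P μ • w + N • w := by
  obtain ⟨H, hH, N, hN, rfl⟩ := Submodule.mem_sup.1 (HC_mem hz.1 (Zc_comm_hh hz))
  obtain ⟨P, hP⟩ := diag_poly hH
  exact ⟨P, N, hN, fun l w μ h => by rw [add_smul, hP l w μ h]⟩

lemma vv_ne (l : Fin n → ℂ) : vv l ≠ 0 := by
  have h := (vB l).ne_zero 0
  rw [vB_apply, lst_zero, List.map_nil, List.prod_nil, one_smul] at h
  exact h

/-- the part of the exponent with rows `≥ m` -/
noncomputable def kup (m : ℕ) (k : KK n) : KK n := k.filter fun p => m ≤ rw' p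

/-- the part of the exponent with rows `< m` -/
noncomputable def klo (m : ℕ) (k : KK n) : KK n := k.filter fun p => ¬ m ≤ rw' p

lemma klo_add_kup (m : ℕ) (k : KK n) : klo m k + kup m k = k := by
  rw [add_comm]
  exact Finsupp.filter_add_filter_not k _

lemma kup_up (m : ℕ) (k : KK n) : up m (kup m k) := by
  intro p hp
  by_contra h
  exact hp (Finsupp.filter_apply_neg (fun p : NP n => m ≤ rw' p) _ h)

lemma klo_lo (m : ℕ) (k : KK n) : lo m (klo m k) := by
  intro p hp
  by_contra h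
  exact hp (Finsupp.filter_apply_neg (fun p : NP n => ¬ m ≤ rw' p) _ (not_not.2 (not_lt.1 h)))

lemma linComb_lo {M : Type} [AddCommMonoid M] {m : ℕ} {k : KK n} (hk : lo m k) (f : NP n → M)
    (hf : ∀ p, rw' p < m → f p = 0) : Finsupp.linearCombination ℕ f k = 0 := by
  rw [Finsupp.linearCombination_apply, Finsupp.sum]
  refine Finset.sum_eq_zero fun p hp => ?_
  rw [hf p (hk p (Finsupp.mem_support_iff.1 hp)), smul_zero]

lemma sg_kup {m m' : ℕ} (h : m ≤ m') (k : KK n) : sg m' (kup m k) = sg m' k := by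
  conv_rhs => rw [← klo_add_kup m k, map_add]
  have : sg m' (klo m k) = 0 := by
    refine linComb_lo (klo_lo m k) _ fun p hp => ?_
    rw [fs, if_neg]
    omega
  rw [this, zero_add]

lemma slt_kup {m : ℕ} {k q : KK n} (h : slt m (kup m k) q) : slt m k q := by
  refine ⟨fun m' hm' => ?_, ?_⟩
  · rw [← sg_kup hm']
    exact h.1 m' hm'
  · rw [← sg_kup le_rfl]
    exact h.2

/-- The action of a central element of `U(gl(m))` is triangular. -/
theorem tri {m : ℕ} {z : U n} (hz : z ∈ Zc n m) : ∃ P : (Fin n → ℂ) → ℂ,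
    (∀ (l : Fin n → ℂ) (w : Verma l) (μ : Fin n → ℂ),
      (∀ i : Fin n, (i : ℕ) < m → E i i • w = μ i • w) →
      (∀ i j : Fin n, i < j → (j : ℕ) < m → E i j • w = 0) → z • w = P μ • w) ∧
    (∀ (l : Fin n → ℂ) (k : KK n), z • bv l k - P (wt l (kup m k)) • bv l k ∈ bsp l (slt m k)) := by
  obtain ⟨P, N, hN, hP⟩ := HC hz
  refine ⟨P, fun l w μ h1 h2 => ?_, fun l k => ?_⟩
  · rw [hP l w μ h1, NN_singular l h2 hN, add_zero]
  · have e : bv l k = ((lst (klo m k)).map y).prod • bv l (kup m k) := by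
      rw [← bv_add l (klo_lo m k) (kup_up m k), klo_add_kup]
    have hY : ((lst (klo m k)).map y).prod ∈ Usub n m := by
      refine Subalgebra.list_prod_mem _ ?_
      intro x hx
      obtain ⟨p, hp, rfl⟩ := List.mem_map.1 hx
      have h1 : rw' p < m := klo_lo m k p (mem_lst.1 hp)
      exact E_mem_Usub h1 (lt_trans (cl_lt p) h1)
    have h2 := hP l (bv l (kup m k)) (wt l (kup m k)) fun i _ => E_diag_bv l i _
    rw [e, ← mul_smul, hz.2 _ hY, mul_smul, h2, smul_add, smul_comm, add_sub_cancel_left,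
      ← mul_smul]
    exact bsp_mono (fun q hq => slt_kup hq) (C2 l (kup_up m k) (NN_mul hY hN))

end Pool.Agent.K1H1.GT
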