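import Pool.Agent.K1H1.GT.Defs
import Pool.Agent.H67.OL.DOM
import Pool.Agent.H67.OL.PBW2
import Pool.Agent.H67.OL.SORT

/-!
# Sorted products, the PBW basis
-/

set_option autoImplicit false
set_option linter.unusedSectionVars false

namespace Pool.Agent.K1H1.GT

open H67OL H67OL.DOMaux

attribute [local instance 100] LieRing.ofAssociativeRing

section Lst

variable {I : Type} [LinearOrder I]

lemma mem_lst {s : I →₀ ℕ} {i : I} : i ∈ lst s ↔ s i ≠ 0 := by
  unfold lst
  rw [Multiset.mem_sort, Finsupp.mem_toMultiset, Finsupp.mem_support_iff]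

lemma lst_sorted (s : I →₀ ℕ) : (lst s).Pairwise (· ≤ ·) := Multiset.pairwise_sort _ _

lemma lst_coe (s : I →₀ ℕ) : ((lst s : List I) : Multiset I) = Finsupp.toMultiset s :=
  Multiset.sort_eq _ _

lemma lst_eq_of {s : I →₀ ℕ} {w : List I} (hw : w.Pairwise (· ≤ ·))
    (h : (w : Multiset I) = Finsupp.toMultiset s) : lst s = w := by
  have h1 : (lst s).Perm w := by
    rw [← Multiset.coe_eq_coe, lst_coe, h]
  exact h1.eq_of_pairwise' (lst_sorted s) hw

@[simp] lemma lst_zero : lst (0 : I →₀ ℕ) = [] := by
  apply lst_eq_of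
  · exact List.Pairwise.nil
  · simp

lemma lst_add {s t : I →₀ ℕ} (h : ∀ i j, s i ≠ 0 → t j ≠ 0 → i ≤ j) :
    lst (s + t) = lst s ++ lst t := by
  apply lst_eq_of
  · rw [List.pairwise_append]
    exact ⟨lst_sorted s, lst_sorted t, fun a ha b hb => h a b (mem_lst.1 ha) (mem_lst.1 hb)⟩
  · rw [← Multiset.coe_add, lst_coe, lst_coe, map_add]

/-- the exponent vector of a list -/
noncomputable def cnt (w : List I) : I →₀ ℕ := (w.map fun i => Finsupp.single i 1).sum

@[simp] lemma cnt_nil : cnt ([] : List I) = 0 := rfl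

@[simp] lemma cnt_cons (x : I) (w : List I) : cnt (x :: w) = Finsupp.single x 1 + cnt w := by
  simp [cnt]

lemma toMultiset_cnt (w : List I) : Finsupp.toMultiset (cnt w) = (w : Multiset I) := by
  induction w with
  | nil => simp
  | cons x w ih =>
    rw [cnt_cons, map_add, ih, Finsupp.toMultiset_single, one_smul]
    simp

lemma lst_cnt {w : List I} (hw : w.Pairwise (· ≤ ·)) : lst (cnt w) = w :=
  lst_eq_of hw (toMultiset_cnt w).symm

lemma cnt_lst (s : I →₀ ℕ) : cnt (lst s) = s := by
  have h : Finsupp.toMultiset (cnt (lst s)) = Finsupp.toMultiset s := by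
    rw [toMultiset_cnt, lst_coe]
  classical
  rw [← Finsupp.toMultiset_toFinsupp (cnt (lst s)), h, Finsupp.toMultiset_toFinsupp]

lemma cnt_apply (w : List I) (i : I) : cnt w i = w.count i := by
  induction w with
  | nil => simp
  | cons x w ih =>
    rw [cnt_cons, Finsupp.add_apply, ih, List.count_cons, Finsupp.single_apply]
    by_cases h : x = i
    · simp [h, add_comm]
    · simp [h]

lemma cnt_ne_zero {w : List I} {i : I} : cnt w i ≠ 0 ↔ i ∈ w := by
  rw [cnt_apply, ← Nat.pos_iff_ne_zero]
  exact List.count_pos_iff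

end Lst

section Srt

variable {A : Type} [Ring A] {I : Type} [LinearOrder I]

lemma orderedInsert_prod (g : I → A) (x : I) (l : List I)
    (h : ∀ y ∈ l, y < x → g x * g y = g y * g x) :
    ((l.orderedInsert (· ≤ ·) x).map g).prod = g x * (l.map g).prod := by
  induction l with
  | nil => simp
  | cons y l ih =>
    rw [List.orderedInsert_cons]
    split_ifs with hxy
    · simp
    · have hlt : y < x := not_le.1 hxy
      rw [List.map_cons, List.prod_cons, ih (fun z hz => h z (List.mem_cons_of_mem _ hz)),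
        List.map_cons, List.prod_cons, ← mul_assoc, ← mul_assoc, h y (List.mem_cons_self ..) hlt]

/-- A product may be sorted if the elements that are out of order commute. -/
lemma sort_prod (g : I → A) (w : List I)
    (h : w.Pairwise (fun x y => y < x → g x * g y = g y * g x)) :
    (w.map g).prod = ((lst (cnt w)).map g).prod := by
  have h1 : lst (cnt w) = w.insertionSort (· ≤ ·) := by
    apply lst_eq_of (List.pairwise_insertionSort _ _)
    rw [toMultiset_cnt, Multiset.coe_eq_coe]
    exact List.perm_insertionSort _ _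
  rw [h1]
  clear h1
  induction w with
  | nil => simp
  | cons x w ih =>
    rw [List.pairwise_cons] at h
    rw [List.insertionSort_cons, orderedInsert_prod, ← ih h.2, List.map_cons, List.prod_cons]
    intro y hy
    rw [List.mem_insertionSort] at hy
    exact h.1 y hy

end Srt

/-- The Poincaré–Birkhoff–Witt basis. -/
theorem pbw (K : Type) [Field K] (L : Type) [LieRing L] [LieAlgebra K L] (I : Type)
    [LinearOrder I] (b : Module.Basis I K L) :
    ∃ β : Module.Basis (I →₀ ℕ) K (UniversalEnvelopingAlgebra K L),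
      ∀ s, β s = ((lst s).map (fun i => UniversalEnvelopingAlgebra.ι K (b i))).prod := by
  classical
  obtain ⟨ρ, hlie, hρ⟩ := t_PBW2 K L I b
  obtain ⟨Φ, hΦ'⟩ : ∃ Φ : UniversalEnvelopingAlgebra K L →ₐ[K]
      Module.End K (MvPolynomial I K), ∀ x, Φ (UniversalEnvelopingAlgebra.ι K x) = ρ x := by
    let ρ' : L →ₗ⁅K⁆ Module.End K (MvPolynomial I K) :=
      { ρ with
        map_lie' := by
          intro x y
          rw [LieRing.of_associative_ring_bracket]
          exact hlie x y }
    exact ⟨UniversalEnvelopingAlgebra.lift K ρ', fun x =>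
      UniversalEnvelopingAlgebra.lift_ι_apply K ρ' x⟩
  set g : I → UniversalEnvelopingAlgebra K L := fun i => UniversalEnvelopingAlgebra.ι K (b i)
    with hg
  have hΦ : ∀ i, Φ (g i) = ρ (b i) := fun i => hΦ' (b i)
  have hne : ∀ {σ p : MvPolynomial I K}, σ ≠ 0 → p ≠ 0 → Φ (Psi (K := K) g σ) p ≠ 0 :=
    fun hσ hp => act_ne b ρ g Φ hΦ hρ hσ hp
  have hspan : ∀ x : L, UniversalEnvelopingAlgebra.ι K x ∈ Submodule.span K (Set.range g) := by
    intro x
    rw [← b.linearCombination_repr x, Finsupp.linearCombination_apply, Finsupp.sum, map_sum]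
    refine Submodule.sum_mem _ fun i _ => ?_
    rw [map_smul]
    exact Submodule.smul_mem _ _ (Submodule.subset_span ⟨i, rfl⟩)
  have hcomm : ∀ β γ, g β * g γ - g γ * g β ∈ Submodule.span K
      {z | ∃ δ, (fun _ : I => 1) δ ≤ (fun _ : I => 1) β + (fun _ : I => 1) γ ∧ z = g δ} := by
    intro β γ
    have e : g β * g γ - g γ * g β = UniversalEnvelopingAlgebra.ι K ⁅b β, b γ⁆ := by
      rw [LieHom.map_lie, LieRing.of_associative_ring_bracket]
    rw [e]
    refine Submodule.span_mono ?_ (hspan _)
    rintro _ ⟨i, rfl⟩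
    exact ⟨i, by simp, rfl⟩
  have hrange : ∀ l : List I, (l.map g).prod ∈ LinearMap.range (Psi (K := K) g) := by
    intro l
    have h3 := t_SORT K (UniversalEnvelopingAlgebra K L) I g (fun _ => 1) hcomm l
    refine Submodule.span_le.2 ?_ h3
    rintro _ ⟨m, hm, _, rfl⟩
    refine ⟨MvPolynomial.monomial (Multiset.toFinsupp (m : Multiset I)) 1, ?_⟩
    rw [Psi_monomial, one_smul, lst_of_sorted m hm]
  have hsurj : Function.Surjective (Psi (K := K) g) := by
    intro u
    have h4 : u ∈ Algebra.adjoin K (Set.range g) := by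
      have := adjoin_top b
      change Algebra.adjoin K (Set.range g) = ⊤ at this
      rw [this]
      exact Algebra.mem_top
    rw [← Subalgebra.mem_toSubmodule, Algebra.adjoin_eq_span] at h4
    have h5 : Submodule.span K (Submonoid.closure (Set.range g) : Set _) ≤
        LinearMap.range (Psi (K := K) g) := by
      rw [Submodule.span_le]
      intro z hz
      obtain ⟨l, rfl⟩ := mem_closure_range g hz
      exact hrange l
    exact h5 h4
  have hinj : Function.Injective (Psi (K := K) g) := by
    rw [injective_iff_map_eq_zero]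
    intro σ h0
    by_contra hσ
    refine hne hσ (one_ne_zero (α := MvPolynomial I K)) ?_
    rw [h0, map_zero]
    rfl
  let e : MvPolynomial I K ≃ₗ[K] UniversalEnvelopingAlgebra K L :=
    LinearEquiv.ofBijective (Psi (K := K) g) ⟨hinj, hsurj⟩
  refine ⟨(MvPolynomial.basisMonomials I K).map e, ?_⟩
  intro s
  rw [Module.Basis.map_apply, MvPolynomial.coe_basisMonomials]
  change Psi (K := K) g (MvPolynomial.monomial s 1) = _
  rw [Psi_monomial, one_smul]

/-- Sorted products span the subalgebra generated by a part of the generators that is closed under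
commutators. -/
lemma adjoin_span {A : Type} [Ring A] [Algebra ℂ A] {I : Type} [LinearOrder I] (g : I → A)
    (C : Set I) (hC : ∀ i ∈ C, ∀ j ∈ C, g i * g j - g j * g i ∈ Submodule.span ℂ (g '' C))
    {x : A} (hx : x ∈ Algebra.adjoin ℂ (g '' C)) :
    x ∈ Submodule.span ℂ {z | ∃ s : I →₀ ℕ, (∀ i, s i ≠ 0 → i ∈ C) ∧ z = ((lst s).map g).prod} := by
  classical
  rw [← Subalgebra.mem_toSubmodule, Algebra.adjoin_eq_span] at hx
  refine Submodule.span_le.2 ?_ hx
  intro z hz
  have himg : g '' C = Set.range (fun i : C => g i) := by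
    ext y
    simp
  rw [himg] at hz
  obtain ⟨l, rfl⟩ := mem_closure_range (fun i : C => g i) hz
  have h3 := t_SORT ℂ A C (fun i : C => g i) (fun _ => 1) (by
    intro β γ
    refine Submodule.span_mono ?_ (hC β β.2 γ γ.2)
    rintro _ ⟨i, hi, rfl⟩
    exact ⟨⟨i, hi⟩, by simp, rfl⟩) l
  refine Submodule.span_mono ?_ h3
  rintro _ ⟨m, hm, _, rfl⟩
  have hs : (m.map Subtype.val).Pairwise (· ≤ ·) := by
    rw [List.pairwise_map]
    exact hm
  refine ⟨cnt (m.map Subtype.val), ?_, ?_⟩
  · intro i hi
    rw [cnt_ne_zero] at hi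
    obtain ⟨j, _, rfl⟩ := List.mem_map.1 hi
    exact j.2
  · rw [lst_cnt hs, List.map_map]
    rfl

end Pool.Agent.K1H1.GT
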