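import Pool.Agent.K1H1.GT.Count

/-!
# The definitions used in the statement about the Gelfand–Tsetlin degree

The same objects as in `Defs.lean`, with the universal enveloping algebra and the Verma modules as
named types.
-/

set_option autoImplicit false

namespace Pool.Agent.K1H1.GLn

attribute [local instance 100] LieRing.ofAssociativeRing

/-- The universal enveloping algebra of the Lie algebra `gl(n)` of complex `n × n` matrices with the
commutator bracket. -/
def U (n : ℕ) : Type := UniversalEnvelopingAlgebra ℂ (Matrix (Fin n) (Fin n) ℂ)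

noncomputable instance (n : ℕ) : Ring (U n) :=
  inferInstanceAs (Ring (UniversalEnvelopingAlgebra ℂ (Matrix (Fin n) (Fin n) ℂ)))

noncomputable instance (n : ℕ) : Algebra ℂ (U n) :=
  inferInstanceAs (Algebra ℂ (UniversalEnvelopingAlgebra ℂ (Matrix (Fin n) (Fin n) ℂ)))

/-- The image of the elementary matrix `E_{ij}` in `U(gl(n))`. -/
noncomputable def E {n : ℕ} (i j : Fin n) : U n :=
  UniversalEnvelopingAlgebra.ι ℂ (Matrix.single i j (1 : ℂ))

/-- `U(gl(m))` inside `U(gl(n))`: the subalgebra generated by the `E_{ij}` whose indices are among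
the first `m` ones. -/
noncomputable def Usub (n m : ℕ) : Subalgebra ℂ (U n) :=
  Algebra.adjoin ℂ {x | ∃ i j : Fin n, (i : ℕ) < m ∧ (j : ℕ) < m ∧ x = E i j}

/-- The center of `U(gl(m))`, as a subset of `U(gl(n))`. -/
def Zc (n m : ℕ) : Set (U n) := {z | z ∈ Usub n m ∧ ∀ x ∈ Usub n m, z * x = x * z}

/-- The Gelfand–Tsetlin subalgebra of `U(gl(n))`: it is generated by the centers of
`U(gl(1)), ..., U(gl(n))`. -/
noncomputable def Gam (n : ℕ) : Subalgebra ℂ (U n) :=
  Algebra.adjoin ℂ {z | ∃ m : ℕ, 1 ≤ m ∧ m ≤ n ∧ z ∈ Zc n m}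

/-- The left ideal of `U(gl(n))` generated by the elements `x - l(x)`, where `x` runs through the
Borel subalgebra `b`: by the `E_{ij}` with `i < j` and the `E_{ii} - l_i`. -/
noncomputable def vIdeal {n : ℕ} (l : Fin n → ℂ) : Submodule (U n) (U n) :=
  Submodule.span (U n) ({x | ∃ i j : Fin n, i < j ∧ x = E i j} ∪
    {x | ∃ i : Fin n, x = E i i - algebraMap ℂ (U n) (l i)})

/-- The Verma module `M(l) = U(gl(n)) ⊗_{U(b)} ℂ_l`, in its presentation as the quotient of
`U(gl(n))` by the left ideal generated by the `x - l(x)`, `x ∈ b`. -/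
def Verma {n : ℕ} (l : Fin n → ℂ) : Type := U n ⧸ vIdeal l

noncomputable instance {n : ℕ} (l : Fin n → ℂ) : AddCommGroup (Verma l) :=
  inferInstanceAs (AddCommGroup (U n ⧸ vIdeal l))

noncomputable instance {n : ℕ} (l : Fin n → ℂ) : Module (U n) (Verma l) :=
  inferInstanceAs (Module (U n) (U n ⧸ vIdeal l))

noncomputable instance {n : ℕ} (l : Fin n → ℂ) : Module ℂ (Verma l) :=
  inferInstanceAs (Module ℂ (U n ⧸ vIdeal l))

instance {n : ℕ} (l : Fin n → ℂ) : SMulCommClass ℂ (U n) (Verma l) :=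
  inferInstanceAs (SMulCommClass ℂ (U n) (U n ⧸ vIdeal l))

/-- Half the sum of the positive roots, `((n-1)/2, (n-3)/2, ..., (1-n)/2)`. -/
noncomputable def rho (n : ℕ) : Fin n → ℂ := fun i => ((n : ℂ) - 1) / 2 - ((i : ℕ) : ℂ)

/-- The vector `v` of `M(l)` is killed by some power of the ideal `m` of the Gelfand–Tsetlin
subalgebra. -/
def IsKilled {n : ℕ} (l : Fin n → ℂ) (m : Ideal (Gam n)) (v : Verma l) : Prop :=
  ∃ k : ℕ, ∀ x ∈ m ^ k, (x : U n) • v = 0

lemma isKilled_zero {n : ℕ} (l : Fin n → ℂ) (m : Ideal (Gam n)) : IsKilled l m 0 :=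
  ⟨0, fun _ _ => smul_zero _⟩

lemma isKilled_add {n : ℕ} {l : Fin n → ℂ} {m : Ideal (Gam n)} {a b : Verma l}
    (ha : IsKilled l m a) (hb : IsKilled l m b) : IsKilled l m (a + b) := by
  obtain ⟨k, hk⟩ := ha
  obtain ⟨k', hk'⟩ := hb
  refine ⟨max k k', fun x hx => ?_⟩
  rw [smul_add, hk x (Ideal.pow_le_pow_right (le_max_left _ _) hx),
    hk' x (Ideal.pow_le_pow_right (le_max_right _ _) hx), add_zero]

lemma isKilled_smul {n : ℕ} {l : Fin n → ℂ} {m : Ideal (Gam n)} (c : ℂ) {a : Verma l}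
    (ha : IsKilled l m a) : IsKilled l m (c • a) := by
  obtain ⟨k, hk⟩ := ha
  refine ⟨k, fun x hx => ?_⟩
  rw [← smul_comm, hk x hx, smul_zero]

/-- The space `M_m` of all `v ∈ M(l)` that are killed by some power of the ideal `m` of the
Gelfand–Tsetlin subalgebra. -/
def genSpace {n : ℕ} (l : Fin n → ℂ) (m : Ideal (Gam n)) : Submodule ℂ (Verma l) where
  carrier := {v | IsKilled l m v}
  zero_mem' := isKilled_zero l m
  add_mem' := isKilled_add
  smul_mem' := fun c _ => isKilled_smul c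

/-- The Gelfand–Tsetlin degree of the Verma module `M(l)`: the supremum of the dimensions of the
spaces `M_m`, for all maximal ideals `m` of the Gelfand–Tsetlin subalgebra. -/
noncomputable def GTdeg {n : ℕ} (l : Fin n → ℂ) : Cardinal :=
  ⨆ m : {m : Ideal (Gam n) // m.IsMaximal}, Module.rank ℂ (genSpace l m.1)

lemma GTdeg_eq {n : ℕ} (l : Fin n → ℂ) : GTdeg l = GT.GTdeg l := rfl

/-- The Gelfand–Tsetlin subalgebra is commutative. -/
lemma Gam_comm {n : ℕ} (x y : Gam n) : x * y = y * x := GT.Gam_comm (n := n) x y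

end Pool.Agent.K1H1.GLn
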