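import Pool.Agent.K1H1.GT.HC

/-!
# Symmetry of the characters of the centers
-/

set_option autoImplicit false
set_option linter.unusedSectionVars false

namespace Pool.Agent.K1H1.GT

open H67OL H67OL.DOMaux

attribute [local instance 100] LieRing.ofAssociativeRing

variable {n : ℕ}

lemma bv_ne (l : Fin n → ℂ) (k : KK n) : bv l k ≠ 0 := by
  have h := (vB l).ne_zero k
  rw [vB_apply] at h
  exact h

/-- the defining property of the polynomial of a central element -/
def IsPoly (m : ℕ) (z : U n) (P : (Fin n → ℂ) → ℂ) : Prop :=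
  ∀ (l : Fin n → ℂ) (w : Verma l) (μ : Fin n → ℂ),
      (∀ i : Fin n, (i : ℕ) < m → E i i • w = μ i • w) →
      (∀ i j : Fin n, i < j → (j : ℕ) < m → E i j • w = 0) → z • w = P μ • w

lemma P_congr {m : ℕ} {z : U n} {P : (Fin n → ℂ) → ℂ} (hP : IsPoly m z P) {μ ν : Fin n → ℂ}
    (h : ∀ i : Fin n, (i : ℕ) < m → μ i = ν i) : P μ = P ν := by
  have h1 := hP μ (vv μ) μ (fun i _ => E_diag_vv μ i) (fun i j hij _ => E_vv μ hij)
  have h2 := hP μ (vv μ) ν (fun i hi => by rw [← h i hi]; exact E_diag_vv μ i)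
    (fun i j hij _ => E_vv μ hij)
  rw [h1] at h2
  exact smul_left_injective ℂ (vv_ne μ) h2

lemma kill (μ : Fin n → ℂ) {i i' : Fin n} (hi : (i' : ℕ) = i + 1) (r : ℕ) :
    ∀ a b : Fin n, a < b → ¬ (a = i ∧ b = i') → E a b • ((E i' i) ^ r • vv μ) = 0 := by
  induction r with
  | zero =>
    intro a b hab _
    rw [pow_zero, one_smul, E_vv μ hab]
  | succ r ih =>
    intro a b hab hne
    have h := E_comm a b i' i
    rw [sub_eq_iff_eq_add] at h
    rw [pow_succ', mul_smul, smul_smul, h, add_smul, sub_smul, mul_smul, ih a b hab hne, smul_zero,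
      add_zero]
    have hlt : (a : ℕ) < b := hab
    have h1 : (if b = i' then E a i else 0 : U n) • ((E i' i) ^ r • vv μ) = 0 := by
      split_ifs with hb
      · refine ih a i ?_ ?_
        · have h3 : a ≠ i := fun h => hne ⟨h, hb⟩
          have h4 : (a : ℕ) ≠ i := fun h => h3 (Fin.ext h)
          rw [hb] at hlt
          change (a : ℕ) < i
          omega
        · rintro ⟨_, h⟩
          rw [h] at hi
          omega
      · rw [zero_smul]
    have h2 : (if i = a then E i' b else 0 : U n) • ((E i' i) ^ r • vv μ) = 0 := by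
      split_ifs with ha
      · refine ih i' b ?_ ?_
        · have h3 : b ≠ i' := fun h => hne ⟨ha.symm, h⟩
          have h4 : (b : ℕ) ≠ i' := fun h => h3 (Fin.ext h)
          rw [← ha] at hlt
          change (i' : ℕ) < b
          omega
        · rintro ⟨h, _⟩
          rw [h] at hi
          omega
      · rw [zero_smul]
    rw [h1, h2, sub_zero]

/-- the index of `E_{i+1,i}` -/
def pp {i i' : Fin n} (hi : (i' : ℕ) = i + 1) : NP n := ⟨(i', i), by
  change (i : ℕ) < i'
  omega⟩

lemma pow_eq {i i' : Fin n} (hi : (i' : ℕ) = i + 1) (r : ℕ) :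
    (E i' i : U n) ^ r = ((List.replicate r (pp hi)).map y).prod := by
  rw [List.map_replicate, List.prod_replicate]
  rfl

lemma wt_rep (μ : Fin n → ℂ) (p : NP n) (r : ℕ) (j : Fin n) :
    wt μ (cnt (List.replicate r p)) j = μ j + r * ws j p := by
  induction r with
  | zero => simp [wt]
  | succ r ih =>
    rw [List.replicate_succ, wt_cons, ih]
    push_cast
    ring

lemma ws_pp {i i' : Fin n} (hi : (i' : ℕ) = i + 1) (j : Fin n) :
    ws j (pp hi) = (if j = i' then (1 : ℂ) else 0) - (if j = i then (1 : ℂ) else 0) := by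
  unfold ws
  have h1 : (rw' (pp hi) = (j : ℕ)) = (j = i') := by
    rw [eq_comm (a := j), Fin.ext_iff]
    rfl
  have h2 : (cl (pp hi) = (j : ℕ)) = (j = i) := by
    rw [eq_comm (a := j), Fin.ext_iff]
    rfl
  simp only [h1, h2]

lemma wt_pow (μ : Fin n → ℂ) {i i' : Fin n} (hi : (i' : ℕ) = i + 1) (r : ℕ) (j : Fin n) :
    E j j • ((E i' i) ^ r • vv μ) = (μ j - (if j = i then (r : ℂ) else 0) +
      (if j = i' then (r : ℂ) else 0)) • ((E i' i) ^ r • vv μ) := by
  rw [pow_eq hi, diag_list, wt_rep, ws_pp]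
  congr 1
  split_ifs <;> ring

lemma pow_ne (μ : Fin n → ℂ) {i i' : Fin n} (hi : (i' : ℕ) = i + 1) (r : ℕ) :
    (E i' i) ^ r • vv μ ≠ 0 := by
  rw [pow_eq hi, row_sorted μ]
  · exact bv_ne _ _
  · unfold rows
    rw [List.map_replicate]
    exact List.pairwise_replicate.2 (Or.inr le_rfl)

lemma sl2 (μ : Fin n → ℂ) {i i' : Fin n} (hi : (i' : ℕ) = i + 1) (r : ℕ) :
    E i i' • ((E i' i) ^ (r + 1) • vv μ) =
      (((r : ℂ) + 1) * (μ i - μ i' - r)) • ((E i' i) ^ r • vv μ) := by
  have hlt : i < i' := by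
    change (i : ℕ) < i'
    omega
  have key : ∀ w : Verma μ, E i i' • (E i' i • w) = E i' i • (E i i' • w) + E i i • w -
      E i' i' • w := by
    intro w
    have h := E_comm i i' i' i
    rw [if_pos rfl, if_pos rfl, sub_eq_iff_eq_add] at h
    rw [smul_smul, h, add_smul, sub_smul, mul_smul]
    abel
  have hne : i ≠ i' := hlt.ne
  induction r with
  | zero =>
    rw [pow_succ', mul_smul, key, pow_zero, one_smul, E_vv μ hlt, E_diag_vv, E_diag_vv, smul_zero,
      zero_add, ← sub_smul]
    congr 1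
    push_cast
    ring
  | succ r ih =>
    rw [pow_succ' _ (r + 1), mul_smul, key, ih, wt_pow μ hi, wt_pow μ hi, smul_comm, smul_smul,
      ← pow_succ', ← add_smul, ← sub_smul]
    congr 1
    rw [if_pos rfl, if_neg hne, if_neg hne.symm, if_pos rfl]
    push_cast
    ring

/-- The reflection symmetry of the polynomial of a central element. -/
lemma P_refl {m : ℕ} {z : U n} (hz : z ∈ Zc n m) {P : (Fin n → ℂ) → ℂ} (hP : IsPoly m z P)
    {i i' : Fin n} (hi : (i' : ℕ) = i + 1) (hm : (i' : ℕ) < m) (μ : Fin n → ℂ) (r : ℕ)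
    (hr : μ i - μ i' + 1 = r) :
    P (fun j => μ j - (if j = i then (r : ℂ) else 0) + (if j = i' then (r : ℂ) else 0)) = P μ := by
  have h1 := hP μ (vv μ) μ (fun i _ => E_diag_vv μ i) (fun i j hij _ => E_vv μ hij)
  have h2 := hP μ ((E i' i) ^ r • vv μ) _ (fun j _ => wt_pow μ hi r j) (by
    intro a b hab _
    by_cases h : a = i ∧ b = i'
    · obtain ⟨rfl, rfl⟩ := h
      cases r with
      | zero => rw [pow_zero, one_smul, E_vv μ hab]
      | succ r =>
        rw [sl2 μ hi r]
        have : μ a - μ b - r = 0 := by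
          push_cast at hr
          linear_combination hr
        rw [this, mul_zero, zero_smul]
    · exact kill μ hi r a b hab h)
  have hmem : (E i' i : U n) ^ r ∈ Usub n m :=
    Subalgebra.pow_mem _ (E_mem_Usub hm (by omega)) r
  rw [smul_smul, hz.2 _ hmem, mul_smul, h1, smul_comm] at h2
  exact (smul_left_injective ℂ (pow_ne μ hi r) h2).symm

/-- the weight with coordinates `l i - a i` -/
noncomputable def ext (l : Fin n → ℂ) (m : ℕ) (a : Fin m → ℕ) : Fin n → ℂ :=
  fun i => if h : (i : ℕ) < m then l i - a ⟨i, h⟩ else 0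

lemma ext_apply (l : Fin n → ℂ) (m : ℕ) (a : Fin m → ℕ) {i : Fin n} (h : (i : ℕ) < m) :
    ext l m a i = l i - a ⟨i, h⟩ := dif_pos h

/-- The highest weight `-ρ`. -/
def IsRho (l : Fin n → ℂ) : Prop := ∀ i i' : Fin n, (i' : ℕ) = i + 1 → l i' = l i + 1

lemma Q_swap {m : ℕ} {z : U n} (hz : z ∈ Zc n m) {P : (Fin n → ℂ) → ℂ} (hP : IsPoly m z P)
    {l : Fin n → ℂ} (hl : IsRho l) (hmn : m ≤ n) (x x' : Fin m) (hx : (x' : ℕ) = x + 1)
    (a : Fin m → ℕ) : P (ext l m (a ∘ Equiv.swap x x')) = P (ext l m a) := by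
  have key : ∀ a : Fin m → ℕ, a x ≤ a x' →
      P (ext l m (a ∘ Equiv.swap x x')) = P (ext l m a) := by
    intro a ha
    set i : Fin n := ⟨x, lt_of_lt_of_le x.2 hmn⟩ with hi
    set i' : Fin n := ⟨x', lt_of_lt_of_le x'.2 hmn⟩ with hi'
    have h1 := P_refl hz hP (i := i) (i' := i') hx x'.2 (ext l m a) (a x' - a x) (by
      rw [ext_apply l m a (show (i : ℕ) < m from x.2), ext_apply l m a (show (i' : ℕ) < m from x'.2),
        hl i i' hx, Nat.cast_sub ha]
      ring)
    rw [← h1]
    refine P_congr hP fun j hj => ?_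
    have hne : x ≠ x' := by rintro h; rw [h] at hx; omega
    rw [ext_apply l m _ hj, ext_apply l m a hj, Nat.cast_sub ha, Function.comp_apply]
    by_cases hj1 : (⟨j, hj⟩ : Fin m) = x
    · have h2 : j = i := by
        apply Fin.ext
        have := congrArg Fin.val hj1
        exact this
      have h3 : j ≠ i' := by
        rw [h2]
        intro h
        have h4 : (i : ℕ) = i' := congrArg Fin.val h
        exact hne (Fin.ext h4)
      rw [hj1, Equiv.swap_apply_left, if_pos h2, if_neg h3]
      ring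
    · have h2 : j ≠ i := by
        intro h
        have h4 : (j : ℕ) = i := congrArg Fin.val h
        exact hj1 (Fin.ext h4)
      by_cases hj2 : (⟨j, hj⟩ : Fin m) = x'
      · have h3 : j = i' := by
          apply Fin.ext
          have := congrArg Fin.val hj2
          exact this
        rw [hj2, Equiv.swap_apply_right, if_neg h2, if_pos h3]
        ring
      · have h3 : j ≠ i' := by
          intro h
          have h4 : (j : ℕ) = i' := congrArg Fin.val h
          exact hj2 (Fin.ext h4)
        rw [Equiv.swap_apply_of_ne_of_ne hj1 hj2, if_neg h2, if_neg h3]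
        ring
  rcases le_total (a x) (a x') with h | h
  · exact key a h
  · have h2 := key (a ∘ Equiv.swap x x') (by
      rw [Function.comp_apply, Function.comp_apply, Equiv.swap_apply_left,
        Equiv.swap_apply_right]
      exact h)
    rw [← h2]
    congr 2
    funext y
    rw [Function.comp_apply, Function.comp_apply, Equiv.swap_apply_self]

/-- The characters of the centers are symmetric. -/
theorem Q_symm {m : ℕ} {z : U n} (hz : z ∈ Zc n m) {P : (Fin n → ℂ) → ℂ} (hP : IsPoly m z P)
    {l : Fin n → ℂ} (hl : IsRho l) (hmn : m ≤ n) (τ : Equiv.Perm (Fin m)) (a : Fin m → ℕ) :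
    P (ext l m (a ∘ τ)) = P (ext l m a) := by
  cases m with
  | zero =>
    congr 2
    exact Subsingleton.elim _ _
  | succ m =>
    have h : τ ∈ Submonoid.closure (Set.range fun i : Fin m => Equiv.swap i.castSucc i.succ) := by
      rw [Equiv.Perm.mclosure_swap_castSucc_succ]
      exact Submonoid.mem_top _
    revert a
    induction h using Submonoid.closure_induction with
    | mem x hx =>
      obtain ⟨i, rfl⟩ := hx
      intro a
      exact Q_swap hz hP hl hmn i.castSucc i.succ (by simp) a
    | one => intro a; rfl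
    | mul x y _ _ hx hy =>
      intro a
      rw [Equiv.Perm.coe_mul, ← Function.comp_assoc, hy, hx]

end Pool.Agent.K1H1.GT
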