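import Pool.Agent.K1H1.GT.PBW

/-!
# The basis of a Verma module over `gl(n)`
-/

set_option autoImplicit false
set_option linter.unusedSectionVars false

namespace Pool.Agent.K1H1.GT

open H67OL H67OL.DOMaux

attribute [local instance 100] LieRing.ofAssociativeRing

/-- Index set for the elementary matrices. -/
def Ix (n : ℕ) : Type := Fin n × Fin n

variable {n : ℕ}

instance : DecidableEq (Ix n) := inferInstanceAs (DecidableEq (Fin n × Fin n))
instance : Fintype (Ix n) := inferInstanceAs (Fintype (Fin n × Fin n))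

/-- The sorting key: first the lower triangular matrices, then the diagonal ones, then the upper
triangular ones; in each class by rows. -/
def key (p : Ix n) : ℕ ×ₗ (Fin n ×ₗ Fin n) :=
  toLex (if p.2 < p.1 then 0 else if p.1 = p.2 then 1 else 2, toLex (p.1, p.2))

lemma key_injective : Function.Injective (key (n := n)) := by
  intro p q h
  have h1 : toLex (p.1, p.2) = toLex (q.1, q.2) := congrArg (fun x => (ofLex x).2) h
  exact toLex.injective h1

noncomputable instance : LinearOrder (Ix n) := LinearOrder.lift' key key_injective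

lemma lt_iff_key (p q : Ix n) : p < q ↔ key p < key q := Iff.rfl

lemma lt_of_neg {p q : Ix n} (hp : p.2 < p.1) (hq : ¬ q.2 < q.1) : p < q := by
  rw [lt_iff_key, key, key, Prod.Lex.toLex_lt_toLex]
  left
  simp only [if_pos hp, if_neg hq]
  split_ifs <;> norm_num

lemma neg_lt_iff {p q : Ix n} (hp : p.2 < p.1) (hq : q.2 < q.1) :
    p < q ↔ p.1 < q.1 ∨ (p.1 = q.1 ∧ p.2 < q.2) := by
  rw [lt_iff_key, key, key, Prod.Lex.toLex_lt_toLex]
  simp only [if_pos hp, if_pos hq, lt_irrefl, false_or, true_and]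
  rw [Prod.Lex.toLex_lt_toLex]

/-- a diagonal element comes before an upper triangular one -/
lemma diag_lt {p q : Ix n} (hp : p.1 = p.2) (hq : q.1 < q.2) : p < q := by
  rw [lt_iff_key, key, key, Prod.Lex.toLex_lt_toLex]
  left
  have h1 : ¬ p.2 < p.1 := by rw [hp]; exact lt_irrefl _
  simp only [if_neg h1, if_pos hp, if_neg (not_lt.2 hq.le), if_neg hq.ne]
  norm_num

/-- The basis of elementary matrices. -/
noncomputable def stdB (n : ℕ) : Module.Basis (Ix n) ℂ (gl n) := Matrix.stdBasis ℂ (Fin n) (Fin n)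

lemma stdB_apply (p : Ix n) : stdB n p = Matrix.single p.1 p.2 1 :=
  Matrix.stdBasis_eq_single ℂ p.1 p.2

/-- the generators of `U(gl(n))` -/
noncomputable def g (p : Ix n) : U n := E p.1 p.2

lemma g_eq (p : Ix n) : g p = UniversalEnvelopingAlgebra.ι ℂ (stdB n p) := by
  rw [stdB_apply]
  rfl

lemma E_comm (i j k l : Fin n) : (E i j * E k l - E k l * E i j : U n) =
    (if j = k then E i l else 0) - (if l = i then E k j else 0) := by
  have h : (E i j * E k l - E k l * E i j : U n) = UniversalEnvelopingAlgebra.ι ℂ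
      ⁅Matrix.single i j (1 : ℂ), Matrix.single k l (1 : ℂ)⁆ := by
    rw [LieHom.map_lie, LieRing.of_associative_ring_bracket]
    rfl
  rw [h, LieRing.of_associative_ring_bracket]
  have h1 : (Matrix.single i j (1 : ℂ) * Matrix.single k l (1 : ℂ) : gl n) =
      if j = k then Matrix.single i l 1 else 0 := by
    split_ifs with h
    · subst h
      rw [Matrix.single_mul_single_same, one_mul]
    · rw [Matrix.single_mul_single_of_ne _ _ _ _ h]
  have h2 : (Matrix.single k l (1 : ℂ) * Matrix.single i j (1 : ℂ) : gl n) =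
      if l = i then Matrix.single k j 1 else 0 := by
    split_ifs with h
    · subst h
      rw [Matrix.single_mul_single_same, one_mul]
    · rw [Matrix.single_mul_single_of_ne _ _ _ _ h]
  rw [h1, h2, map_sub]
  congr 1
  · split_ifs
    · rfl
    · rw [map_zero]
  · split_ifs
    · rfl
    · rw [map_zero]

/-- the Poincaré–Birkhoff–Witt basis of `U(gl(n))` -/
noncomputable def bet (n : ℕ) : Module.Basis (Ix n →₀ ℕ) ℂ (U n) :=
  (pbw ℂ (gl n) (Ix n) (stdB n)).choose

lemma bet_apply (s : Ix n →₀ ℕ) : bet n s = ((lst s).map g).prod := by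
  rw [bet, (pbw ℂ (gl n) (Ix n) (stdB n)).choose_spec s]
  congr 1
  exact List.map_congr_left fun p _ => (g_eq p).symm

/-! ### the Borel subalgebra -/

/-- upper triangular matrices -/
def Bor (n : ℕ) : LieSubalgebra ℂ (gl n) where
  carrier := {x | ∀ i j : Fin n, j < i → x i j = 0}
  add_mem' := by
    intro a b ha hb i j h
    rw [Matrix.add_apply, ha i j h, hb i j h, add_zero]
  zero_mem' := fun _ _ _ => rfl
  smul_mem' := by
    intro c a ha i j h
    rw [Matrix.smul_apply, ha i j h, smul_zero]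
  lie_mem' := by
    intro a b ha hb i j h
    have key : ∀ a b : gl n, (∀ i j : Fin n, j < i → a i j = 0) →
        (∀ i j : Fin n, j < i → b i j = 0) → (a * b) i j = 0 := by
      intro a b ha hb
      rw [Matrix.mul_apply]
      refine Finset.sum_eq_zero fun k _ => ?_
      by_cases h1 : k < i
      · rw [ha i k h1, zero_mul]
      · rw [hb k j (lt_of_lt_of_le h (not_lt.1 h1)), mul_zero]
    rw [LieRing.of_associative_ring_bracket, Matrix.sub_apply, key a b ha hb, key b a hb ha,
      sub_zero]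

lemma mem_Bor {x : gl n} : x ∈ Bor n ↔ ∀ i j : Fin n, j < i → x i j = 0 := Iff.rfl

lemma diag_mul {a b : gl n} (ha : a ∈ Bor n) (hb : b ∈ Bor n) (i : Fin n) :
    (a * b) i i = a i i * b i i := by
  rw [Matrix.mul_apply]
  refine Finset.sum_eq_single i (fun k _ hk => ?_) (fun h => absurd (Finset.mem_univ _) h)
  rcases lt_or_gt_of_ne hk with h | h
  · rw [ha i k h, zero_mul]
  · rw [hb k i h, mul_zero]

/-- the character of the Borel subalgebra -/
noncomputable def lam (l : Fin n → ℂ) : Bor n →ₗ⁅ℂ⁆ ℂ where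
  toFun x := ∑ i, l i * (x : gl n) i i
  map_add' := by
    intro x y
    rw [← Finset.sum_add_distrib]
    refine Finset.sum_congr rfl fun i _ => ?_
    change l i * ((x : gl n) i i + (y : gl n) i i) = _
    ring
  map_smul' := by
    intro c x
    rw [RingHom.id_apply, smul_eq_mul, Finset.mul_sum]
    refine Finset.sum_congr rfl fun i _ => ?_
    change l i * (c * (x : gl n) i i) = _
    ring
  map_lie' := by
    intro x y
    rw [LieRing.of_associative_ring_bracket, mul_comm, sub_self]
    refine Finset.sum_eq_zero fun i _ => ?_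
    have h : ((⁅x, y⁆ : Bor n) : gl n) i i = 0 := by
      rw [LieSubalgebra.coe_bracket, LieRing.of_associative_ring_bracket, Matrix.sub_apply,
        diag_mul x.2 y.2, diag_mul y.2 x.2, mul_comm, sub_self]
    rw [h, mul_zero]

/-- `U(b)` -/
abbrev UB (n : ℕ) : Type := UniversalEnvelopingAlgebra ℂ (Bor n)

/-- the character of `U(b)` -/
noncomputable def chi (l : Fin n → ℂ) : UB n →ₐ[ℂ] ℂ := UniversalEnvelopingAlgebra.lift ℂ (lam l)

/-- the map `U(b) → U(g)` -/
noncomputable def phi (n : ℕ) : UB n →ₐ[ℂ] U n :=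
  UniversalEnvelopingAlgebra.lift ℂ ((UniversalEnvelopingAlgebra.ι ℂ).comp (Bor n).incl)

lemma single_mem {p : Ix n} (h : ¬ p.2 < p.1) : Matrix.single p.1 p.2 (1 : ℂ) ∈ Bor n := by
  intro i j hij
  rw [Matrix.single_apply_of_ne]
  rintro ⟨h1, h2⟩
  exact h (by rw [h1, h2]; exact hij)

/-- generators of `U(b)` -/
noncomputable def gB (p : Ix n) : UB n :=
  if h : ¬ p.2 < p.1 then UniversalEnvelopingAlgebra.ι ℂ ⟨Matrix.single p.1 p.2 1, single_mem h⟩
  else 0

lemma gB_of {p : Ix n} (h : ¬ p.2 < p.1) : gB p =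
    UniversalEnvelopingAlgebra.ι ℂ (⟨Matrix.single p.1 p.2 1, single_mem h⟩ : Bor n) := dif_pos h

/-- values of the character -/
noncomputable def lamv (l : Fin n → ℂ) (p : Ix n) : ℂ := if p.1 = p.2 then l p.1 else 0

lemma chi_gB (l : Fin n → ℂ) {p : Ix n} (h : ¬ p.2 < p.1) : chi l (gB p) = lamv l p := by
  rw [gB, dif_pos h, chi, UniversalEnvelopingAlgebra.lift_ι_apply]
  change ∑ i, l i * (Matrix.single p.1 p.2 (1 : ℂ)) i i = _
  rw [lamv]
  split_ifs with hp
  · rw [Finset.sum_eq_single p.1]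
    · rw [← hp, Matrix.single_apply_same, mul_one]
    · intro i _ hi
      rw [Matrix.single_apply_of_ne, mul_zero]
      rintro ⟨h1, _⟩
      exact hi h1.symm
    · intro h
      exact absurd (Finset.mem_univ _) h
  · refine Finset.sum_eq_zero fun i _ => ?_
    rw [Matrix.single_apply_of_ne, mul_zero]
    rintro ⟨h1, h2⟩
    exact hp (h1.trans h2.symm)

lemma phi_gB {p : Ix n} (h : ¬ p.2 < p.1) : phi n (gB p) = g p := by
  rw [gB, dif_pos h, phi, UniversalEnvelopingAlgebra.lift_ι_apply]
  rfl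

lemma adjoin_top' {L : Type} [LieRing L] [LieAlgebra ℂ L] (A0 : Subalgebra ℂ
    (UniversalEnvelopingAlgebra ℂ L)) (hι : ∀ x : L, UniversalEnvelopingAlgebra.ι ℂ x ∈ A0) :
    A0 = ⊤ := by
  have key : ∀ t : TensorAlgebra ℂ L, UniversalEnvelopingAlgebra.mkAlgHom ℂ L t ∈ A0 := by
    intro t
    refine TensorAlgebra.induction
      (C := fun t => UniversalEnvelopingAlgebra.mkAlgHom ℂ L t ∈ A0) ?_ ?_ ?_ ?_ t
    · intro r
      rw [AlgHom.commutes]
      exact Subalgebra.algebraMap_mem _ _
    · intro x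
      exact hι x
    · intro x y hx hy
      rw [map_mul]
      exact Subalgebra.mul_mem _ hx hy
    · intro x y hx hy
      rw [map_add]
      exact Subalgebra.add_mem _ hx hy
  have hsurj : Function.Surjective (UniversalEnvelopingAlgebra.mkAlgHom ℂ L) := by
    intro u
    obtain ⟨t, ht⟩ := Quotient.exists_rep u
    exact ⟨t, ht⟩
  rw [eq_top_iff]
  intro u _
  obtain ⟨t, rfl⟩ := hsurj u
  exact key t

/-- non-lower indices -/
def nonneg (n : ℕ) : Set (Ix n) := {p | ¬ p.2 < p.1}

lemma mem_nonneg {p : Ix n} : p ∈ nonneg n ↔ ¬ p.2 < p.1 := Iff.rfl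

lemma iota_mem_span (x : Bor n) :
    UniversalEnvelopingAlgebra.ι ℂ x ∈ Submodule.span ℂ (gB '' nonneg n) := by
  have hx : x = ∑ p ∈ (Finset.univ.filter fun p : Ix n => ¬ p.2 < p.1).attach,
      (x : gl n) p.1.1 p.1.2 • (⟨Matrix.single p.1.1 p.1.2 1,
        single_mem (Finset.mem_filter.1 p.2).2⟩ : Bor n) := by
    apply Subtype.ext
    rw [AddSubmonoidClass.coe_finsetSum]
    have h1 : ∀ p ∈ (Finset.univ.filter fun p : Ix n => ¬ p.2 < p.1).attach,
        (((x : gl n) p.1.1 p.1.2 • (⟨Matrix.single p.1.1 p.1.2 1,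
        single_mem (Finset.mem_filter.1 p.2).2⟩ : Bor n) : Bor n) : gl n) =
        (x : gl n) p.1.1 p.1.2 • Matrix.single p.1.1 p.1.2 (1 : ℂ) := fun p _ => rfl
    rw [Finset.sum_congr rfl h1, Finset.sum_attach _ (fun p : Ix n => (x : gl n) p.1 p.2 •
      Matrix.single p.1 p.2 (1 : ℂ))]
    rw [Finset.sum_filter_of_ne]
    · have h2 := (stdB n).sum_repr (x : gl n)
      conv_lhs => rw [← h2]
      refine Finset.sum_congr rfl fun p _ => ?_
      rw [stdB_apply]
      rfl
    · intro p _ hp hlt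
      exact hp (by rw [x.2 p.1 p.2 hlt, zero_smul])
  rw [hx, map_sum]
  refine Submodule.sum_mem _ fun p _ => ?_
  rw [map_smul]
  refine Submodule.smul_mem _ _ (Submodule.subset_span ⟨p.1, (Finset.mem_filter.1 p.2).2, ?_⟩)
  rw [gB, dif_pos (Finset.mem_filter.1 p.2).2]

lemma UB_span (u : UB n) : u ∈ Submodule.span ℂ {z | ∃ s : Ix n →₀ ℕ,
    (∀ i, s i ≠ 0 → i ∈ nonneg n) ∧ z = ((lst s).map gB).prod} := by
  apply adjoin_span gB (nonneg n)
  · intro i hi j hj
    have e : (gB i * gB j - gB j * gB i : UB n) = UniversalEnvelopingAlgebra.ι ℂ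
        ⁅(⟨Matrix.single i.1 i.2 1, single_mem hi⟩ : Bor n), ⟨Matrix.single j.1 j.2 1,
          single_mem hj⟩⁆ := by
      rw [LieHom.map_lie, LieRing.of_associative_ring_bracket, ← gB_of hi, ← gB_of hj]
    rw [e]
    exact iota_mem_span _
  · rw [adjoin_top' (Algebra.adjoin ℂ (gB '' nonneg n)) (fun x => Algebra.span_le_adjoin ℂ _
      (iota_mem_span x))]
    exact Algebra.mem_top

/-! ### the basis of the Verma module -/

/-- the lower triangular part of an exponent vector -/
noncomputable def sn (s : Ix n →₀ ℕ) : Ix n →₀ ℕ := s.filter fun p => p.2 < p.1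

/-- the upper triangular part of an exponent vector -/
noncomputable def sp (s : Ix n →₀ ℕ) : Ix n →₀ ℕ := s.filter fun p => ¬ p.2 < p.1

lemma sn_add_sp (s : Ix n →₀ ℕ) : sn s + sp s = s := Finsupp.filter_add_filter_not s _

lemma sn_apply_neg (s : Ix n →₀ ℕ) {p : Ix n} (h : p.2 < p.1) : sn s p = s p :=
  Finsupp.filter_apply_pos _ _ h

lemma sn_apply_nonneg (s : Ix n →₀ ℕ) {p : Ix n} (h : ¬ p.2 < p.1) : sn s p = 0 :=
  Finsupp.filter_apply_neg _ _ h

lemma sp_apply_nonneg (s : Ix n →₀ ℕ) {p : Ix n} (h : ¬ p.2 < p.1) : sp s p = s p :=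
  Finsupp.filter_apply_pos (fun p : Ix n => ¬ p.2 < p.1) _ h

lemma sp_apply_neg (s : Ix n →₀ ℕ) {p : Ix n} (h : p.2 < p.1) : sp s p = 0 :=
  Finsupp.filter_apply_neg (fun p : Ix n => ¬ p.2 < p.1) _ (not_not.2 h)

lemma sn_ne {s : Ix n →₀ ℕ} {p : Ix n} (h : sn s p ≠ 0) : p.2 < p.1 := by
  by_contra h'
  exact h (sn_apply_nonneg s h')

lemma sp_ne {s : Ix n →₀ ℕ} {p : Ix n} (h : sp s p ≠ 0) : p ∈ nonneg n :=
  fun h' => h (sp_apply_neg s h')

/-- the projection that detects the Verma module -/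
noncomputable def proj (l : Fin n → ℂ) : U n →ₗ[ℂ] ((Ix n →₀ ℕ) →₀ ℂ) :=
  (bet n).constr ℂ fun s => ((lst (sp s)).map (lamv l)).prod • Finsupp.single (sn s) 1

lemma proj_bet (l : Fin n → ℂ) (s : Ix n →₀ ℕ) : proj l (bet n s) =
    ((lst (sp s)).map (lamv l)).prod • Finsupp.single (sn s) (1 : ℂ) := by
  rw [proj, Module.Basis.constr_basis]

lemma prod_map_hom {A B I : Type} [Monoid A] [Monoid B] (f : A →* B) (w : List I)
    (a : I → A) (b : I → B) (h : ∀ p ∈ w, f (a p) = b p) :
    f ((w.map a).prod) = (w.map b).prod := by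
  rw [map_list_prod, List.map_map]
  congr 1
  exact List.map_congr_left h

lemma phi_prod {t : Ix n →₀ ℕ} (ht : ∀ i, t i ≠ 0 → i ∈ nonneg n) :
    phi n ((lst t).map gB).prod = ((lst t).map g).prod := by
  have := prod_map_hom (phi n : UB n →* U n) (lst t) gB g fun p hp => phi_gB (ht p (mem_lst.1 hp))
  exact this

lemma chi_prod (l : Fin n → ℂ) {t : Ix n →₀ ℕ} (ht : ∀ i, t i ≠ 0 → i ∈ nonneg n) :
    chi l ((lst t).map gB).prod = ((lst t).map (lamv l)).prod := by
  have := prod_map_hom (chi l : UB n →* ℂ) (lst t) gB (lamv l)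
    fun p hp => chi_gB l (ht p (mem_lst.1 hp))
  exact this

lemma proj_mul (l : Fin n → ℂ) {s : Ix n →₀ ℕ} (hs : ∀ i : Ix n, s i ≠ 0 → i.2 < i.1) (u : UB n) :
    proj l (((lst s).map g).prod * phi n u) = chi l u • Finsupp.single s (1 : ℂ) := by
  have hu := UB_span u
  induction hu using Submodule.span_induction with
  | mem x hx =>
    obtain ⟨t, ht, rfl⟩ := hx
    have hle : ∀ i j : Ix n, s i ≠ 0 → t j ≠ 0 → i ≤ j :=
      fun i j hi hj => (lt_of_neg (hs i hi) (ht j hj)).le
    rw [phi_prod ht, chi_prod l ht, ← List.prod_append, ← List.map_append, ← lst_add hle,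
      ← bet_apply, proj_bet]
    have hs' : ∀ p : Ix n, ¬ p.2 < p.1 → s p = 0 := fun p h => by
      by_contra h'
      exact h (hs p h')
    have ht' : ∀ p : Ix n, p.2 < p.1 → t p = 0 := fun p h => by
      by_contra h'
      exact ht p h' h
    have e1 : sp (s + t) = t := by
      ext p
      by_cases h : p.2 < p.1
      · rw [sp_apply_neg _ h, ht' p h]
      · rw [sp_apply_nonneg _ h, Finsupp.add_apply, hs' p h, zero_add]
    have e2 : sn (s + t) = s := by
      ext p
      by_cases h : p.2 < p.1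
      · rw [sn_apply_neg _ h, Finsupp.add_apply, ht' p h, add_zero]
      · rw [sn_apply_nonneg _ h, hs' p h]
    rw [e1, e2]
  | zero => simp
  | add x y _ _ hx hy => rw [map_add, mul_add, map_add, hx, hy, map_add, add_smul]
  | smul c x _ hx => rw [map_smul, mul_smul_comm, map_smul, hx, map_smul, smul_smul, smul_eq_mul]

lemma bet_split (s : Ix n →₀ ℕ) : bet n s =
    ((lst (sn s)).map g).prod * phi n ((lst (sp s)).map gB).prod := by
  rw [phi_prod (fun i hi => sp_ne hi), ← List.prod_append, ← List.map_append,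
    ← lst_add, ← bet_apply, sn_add_sp]
  intro i j hi hj
  exact (lt_of_neg (sn_ne hi) (sp_ne hj)).le

lemma proj_key (l : Fin n → ℂ) (y : UB n) (hy : chi l y = 0) (u : U n) :
    proj l (u * phi n y) = 0 := by
  rw [← (bet n).linearCombination_repr u, Finsupp.linearCombination_apply, Finsupp.sum,
    Finset.sum_mul, map_sum]
  refine Finset.sum_eq_zero fun s _ => ?_
  rw [smul_mul_assoc, map_smul, bet_split, mul_assoc, ← map_mul,
    proj_mul l (fun i hi => sn_ne hi), map_mul, hy, mul_zero, zero_smul, smul_zero]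

lemma lamv_ne (l : Fin n → ℂ) {p : Ix n} (h : p.1 ≠ p.2) : lamv l p = 0 := if_neg h

lemma lamv_eq (l : Fin n → ℂ) {p : Ix n} (h : p.1 = p.2) : lamv l p = l p.1 := if_pos h

/-- the generators of the left ideal are in the image of the kernel of the character -/
lemma gen_phi (l : Fin n → ℂ) {x : U n} (hx : x ∈ ({x | ∃ i j : Fin n, i < j ∧ x = E i j} ∪
    {x | ∃ i : Fin n, x = E i i - algebraMap ℂ (U n) (l i)} : Set (U n))) :
    ∃ y : UB n, chi l y = 0 ∧ x = phi n y := by
  rcases hx with ⟨i, j, hij, rfl⟩ | ⟨i, rfl⟩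
  · have h : ¬ ((i, j) : Ix n).2 < ((i, j) : Ix n).1 := not_lt.2 hij.le
    refine ⟨gB (i, j), ?_, ?_⟩
    · rw [chi_gB l h]
      exact lamv_ne l hij.ne
    · rw [phi_gB h]
      rfl
  · have h : ¬ ((i, i) : Ix n).2 < ((i, i) : Ix n).1 := lt_irrefl _
    refine ⟨gB (i, i) - algebraMap ℂ _ (l i), ?_, ?_⟩
    · rw [map_sub, chi_gB l h, AlgHom.commutes]
      exact sub_eq_zero.2 (lamv_eq l (p := (i, i)) rfl)
    · rw [map_sub, phi_gB h, AlgHom.commutes]
      rfl

lemma proj_ideal (l : Fin n → ℂ) {x : U n} (hx : x ∈ vIdeal l) : ∀ u : U n, proj l (u * x) = 0 := by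
  unfold vIdeal at hx
  induction hx using Submodule.span_induction with
  | mem x hx =>
    intro u
    obtain ⟨y, hy, rfl⟩ := gen_phi l hx
    exact proj_key l y hy u
  | zero => intro u; rw [mul_zero, map_zero]
  | add x y _ _ hx hy => intro u; rw [mul_add, map_add, hx, hy, add_zero]
  | smul a x _ hx =>
    intro u
    rw [smul_eq_mul, ← mul_assoc]
    exact hx _

/-- the highest weight vector -/
noncomputable def vv (l : Fin n → ℂ) : Verma l := Submodule.Quotient.mk 1

lemma mk_eq (l : Fin n → ℂ) (x : U n) : (Submodule.Quotient.mk x : Verma l) = x • vv l := by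
  rw [vv, ← Submodule.Quotient.mk_smul, smul_eq_mul, mul_one]

lemma smul_vv_eq_zero {l : Fin n → ℂ} {x : U n} : x • vv l = 0 ↔ x ∈ vIdeal l := by
  rw [← mk_eq, Submodule.Quotient.mk_eq_zero]

lemma E_vv (l : Fin n → ℂ) {i j : Fin n} (h : i < j) : E i j • vv l = 0 := by
  rw [smul_vv_eq_zero]
  exact Submodule.subset_span (Or.inl ⟨i, j, h, rfl⟩)

lemma E_diag_vv (l : Fin n → ℂ) (i : Fin n) : E i i • vv l = l i • vv l := by
  have h : (E i i - algebraMap ℂ (U n) (l i)) • vv l = 0 := by
    rw [smul_vv_eq_zero]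
    exact Submodule.subset_span (Or.inr ⟨i, rfl⟩)
  rw [sub_smul, algebraMap_smul, sub_eq_zero] at h
  exact h

lemma phi_vv (l : Fin n → ℂ) {t : Ix n →₀ ℕ} (ht : ∀ i, t i ≠ 0 → i ∈ nonneg n) :
    phi n ((lst t).map gB).prod • vv l = ((lst t).map (lamv l)).prod • vv l := by
  rw [phi_prod ht]
  have : ∀ w : List (Ix n), (∀ p ∈ w, p ∈ nonneg n) →
      (w.map g).prod • vv l = (w.map (lamv l)).prod • vv l := by
    intro w hw
    induction w with
    | nil => simp
    | cons p w ih =>
      rw [List.map_cons, List.prod_cons, mul_smul, ih fun q hq => hw q (List.mem_cons_of_mem _ hq),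
        List.map_cons, List.prod_cons, mul_comm, mul_smul, smul_comm]
      congr 1
      have hp := hw p (List.mem_cons_self ..)
      rcases eq_or_lt_of_le (not_lt.1 hp) with h | h
      · rw [lamv_eq l h]
        have : (g p : U n) = E p.1 p.1 := by
          change E p.1 p.2 = _
          rw [← h]
        rw [this, E_diag_vv]
      · rw [lamv_ne l h.ne, zero_smul]
        exact E_vv l h
  exact this _ fun p hp => ht p (mem_lst.1 hp)

/-- Indices of the lower triangular elementary matrices. -/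
abbrev NP (n : ℕ) : Type := {p : Ix n // p.2 < p.1}

lemma NP_lt_iff (p q : NP n) : p < q ↔ p.1.1 < q.1.1 ∨ (p.1.1 = q.1.1 ∧ p.1.2 < q.1.2) :=
  neg_lt_iff p.2 q.2

/-- exponents of the basis of the Verma modules -/
abbrev KK (n : ℕ) : Type := NP n →₀ ℕ

/-- lower triangular generators -/
noncomputable def y (p : NP n) : U n := E p.1.1 p.1.2

/-- extension of exponents -/
noncomputable def emb (k : KK n) : Ix n →₀ ℕ := k.mapDomain Subtype.val

lemma emb_inj : Function.Injective (emb (n := n)) :=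
  Finsupp.mapDomain_injective Subtype.val_injective

lemma emb_ne {k : KK n} {i : Ix n} (h : emb k i ≠ 0) : i.2 < i.1 := by
  by_contra h'
  apply h
  rw [emb, Finsupp.mapDomain_of_notMem_range]
  rintro ⟨j, rfl⟩
  exact h' j.2

lemma lst_emb (k : KK n) : lst (emb k) = (lst k).map Subtype.val := by
  apply lst_eq_of
  · rw [List.pairwise_map]
    exact lst_sorted k
  · rw [emb, ← Finsupp.toMultiset_map, ← Multiset.map_coe, lst_coe]

lemma prod_emb (k : KK n) : ((lst (emb k)).map g).prod = ((lst k).map y).prod := by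
  rw [lst_emb, List.map_map]
  rfl

/-- the vectors of the basis -/
noncomputable def bv (l : Fin n → ℂ) (k : KK n) : Verma l := ((lst k).map y).prod • vv l

lemma bv_linearIndependent (l : Fin n → ℂ) : LinearIndependent ℂ (bv l) := by
  rw [linearIndependent_iff]
  intro c hc
  rw [Finsupp.linearCombination_apply, Finsupp.sum] at hc
  have h1 : (∑ k ∈ c.support, c k • ((lst k).map y).prod : U n) • vv l = 0 := by
    rw [Finset.sum_smul, ← hc]
    exact Finset.sum_congr rfl fun k _ => by rw [smul_assoc]; rfl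
  rw [smul_vv_eq_zero] at h1
  have h2 := proj_ideal l h1 1
  rw [one_mul, map_sum] at h2
  have h3 : ∀ k ∈ c.support, proj l (c k • ((lst k).map y).prod) =
      Finsupp.single (emb k) (c k) := by
    intro k _
    have := proj_mul l (s := emb k) (fun i hi => emb_ne hi) 1
    rw [map_one, mul_one, prod_emb, map_one, one_smul] at this
    rw [map_smul, this, Finsupp.smul_single, smul_eq_mul, mul_one]
  rw [Finset.sum_congr rfl h3] at h2
  have h4 : Finsupp.mapDomain emb c = 0 := h2
  exact Finsupp.mapDomain_injective emb_inj (by rw [h4, Finsupp.mapDomain_zero])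

lemma bv_span (l : Fin n → ℂ) : ⊤ ≤ Submodule.span ℂ (Set.range (bv l)) := by
  intro v _
  obtain ⟨x, rfl⟩ := Submodule.Quotient.mk_surjective _ v
  rw [mk_eq, ← (bet n).linearCombination_repr x, Finsupp.linearCombination_apply, Finsupp.sum,
    Finset.sum_smul]
  refine Submodule.sum_mem _ fun s _ => ?_
  rw [smul_assoc]
  refine Submodule.smul_mem _ _ ?_
  rw [bet_split, mul_smul, phi_vv l (fun i hi => sp_ne hi), smul_comm]
  refine Submodule.smul_mem _ _ (Submodule.subset_span ⟨cnt ((lst (sn s)).attach.map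
    fun p => (⟨p.1, sn_ne (mem_lst.1 p.2)⟩ : NP n)), ?_⟩)
  rw [bv]
  have h1 : ((lst (sn s)).attach.map fun p => (⟨p.1, sn_ne (mem_lst.1 p.2)⟩ : NP n)).Pairwise
      (· ≤ ·) := by
    rw [List.pairwise_map]
    have h2 : ((lst (sn s)).attach.map Subtype.val).Pairwise (· ≤ ·) := by
      rw [List.attach_map_subtype_val]
      exact lst_sorted _
    rw [List.pairwise_map] at h2
    exact h2
  rw [lst_cnt h1, List.map_map]
  congr 2
  conv_rhs => rw [← List.attach_map_subtype_val (lst (sn s)), List.map_map]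
  rfl

/-- The basis of the Verma module. -/
noncomputable def vB (l : Fin n → ℂ) : Module.Basis (KK n) ℂ (Verma l) :=
  Module.Basis.mk (bv_linearIndependent l) (bv_span l)

lemma vB_apply (l : Fin n → ℂ) (k : KK n) : vB l k = ((lst k).map y).prod • vv l := by
  rw [vB, Module.Basis.mk_apply]
  rfl

end Pool.Agent.K1H1.GT
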